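import Pool.Agent.H38.KL.G1
import Pool.Agent.H29.KL.Comb
import Pool.Agent.H29.KL.Pts

/-!
# The curve from the chart `u * swap a a'` to the chart `u`, interface for H29.KL
-/

set_option autoImplicit false

open Matrix Pool.Agent.H30.KL

namespace Pool.Agent.H38.KL

variable {n : ℕ} {u : Equiv.Perm (Fin n)} {a a' : Fin n}

theorem g1geo (h : Pool.Agent.H29.KL.LA u a a') (xi : Fin n → Fin n → ℂ) :
    ∃ eta : Fin n → Fin n → ℂ, ∀ t : ℂ, t ≠ 0 →
      ∃ G T : Matrix (Fin n) (Fin n) ℂ, (∀ x y, y < x → G x y = 0) ∧ (∀ x y, y < x → T x y = 0) ∧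
        Pool.Agent.H29.KL.Zp u (fun r x => if r = u a' ∧ x = u a then t⁻¹ else xi r x + t * eta r x) =
          G * Pool.Agent.H29.KL.Zp (u * Equiv.swap a a') xi * T :=
  g1geo_aux ⟨h.succ, h.asc, h.anti⟩ xi

end Pool.Agent.H38.KL
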