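import Mathlib

/-!
# The cyclic permutation of a finite set of positions
-/

set_option autoImplicit false

namespace Pool.Agent.H38.KL

variable {n : ℕ}

/-- `π` runs through `P` in increasing order and then returns to the smallest element -/
structure IsCyc (P : Finset (Fin n)) (π : Equiv.Perm (Fin n)) : Prop where
  out : ∀ x, x ∉ P → π x = x
  mem : ∀ x ∈ P, π x ∈ P
  up : ∀ x ∈ P, ∀ z ∈ P, x < z → x < π x ∧ π x ≤ z
  last : ∀ x ∈ P, (∀ z ∈ P, z ≤ x) → ∀ z ∈ P, π x ≤ z
  sgn : Equiv.Perm.sign π = (-1) ^ (P.card + 1)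

theorem exists_isCyc (P : Finset (Fin n)) : P.Nonempty → ∃ π, IsCyc P π := by
  refine Finset.induction_on_min P ?_ ?_
  · intro h
    exact absurd h Finset.not_nonempty_empty
  · intro a s ha ih _
    by_cases hs : s.Nonempty
    · obtain ⟨π, hπ⟩ := ih hs
      have has : a ∉ s := fun h => lt_irrefl _ (ha a h)
      have hm := s.min'_mem hs
      have ham := ha _ hm
      have e1 : (Equiv.swap a (s.min' hs) * π) a = s.min' hs := by
        rw [Equiv.Perm.mul_apply, hπ.out a has, Equiv.swap_apply_left]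
      have e2 : ∀ x ∈ s, ∀ z ∈ s, x < z → (Equiv.swap a (s.min' hs) * π) x = π x := by
        intro x hx z hz hxz
        have h1 := hπ.up x hx z hz hxz
        rw [Equiv.Perm.mul_apply, Equiv.swap_apply_of_ne_of_ne]
        · exact ne_of_gt ((ha x hx).trans h1.1)
        · exact ne_of_gt (lt_of_le_of_lt (s.min'_le x hx) h1.1)
      have e3 : ∀ x ∈ s, (∀ z ∈ s, z ≤ x) → (Equiv.swap a (s.min' hs) * π) x = a := by
        intro x hx hl
        have h1 : π x = s.min' hs := le_antisymm (hπ.last x hx hl _ hm) (s.min'_le _ (hπ.mem x hx))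
        rw [Equiv.Perm.mul_apply, h1, Equiv.swap_apply_right]
      refine ⟨Equiv.swap a (s.min' hs) * π, ?_, ?_, ?_, ?_, ?_⟩
      · intro x hx
        rw [Finset.mem_insert, not_or] at hx
        rw [Equiv.Perm.mul_apply, hπ.out x hx.2, Equiv.swap_apply_of_ne_of_ne hx.1]
        rintro rfl
        exact hx.2 hm
      · intro x hx
        rcases Finset.mem_insert.1 hx with rfl | hx
        · rw [e1]
          exact Finset.mem_insert_of_mem hm
        · by_cases h1 : ∀ z ∈ s, z ≤ x
          · rw [e3 x hx h1]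
            exact Finset.mem_insert_self _ _
          · push Not at h1
            obtain ⟨z, hz, hxz⟩ := h1
            rw [e2 x hx z hz hxz]
            exact Finset.mem_insert_of_mem (hπ.mem x hx)
      · intro x hx z hz hxz
        rcases Finset.mem_insert.1 hx with rfl | hx
        · rw [e1]
          refine ⟨ham, ?_⟩
          rcases Finset.mem_insert.1 hz with rfl | hz
          · exact absurd hxz (lt_irrefl _)
          · exact s.min'_le z hz
        · rcases Finset.mem_insert.1 hz with h5 | hz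
          · rw [h5] at hxz
            exact absurd (hxz.trans (ha x hx)) (lt_irrefl _)
          · rw [e2 x hx z hz hxz]
            exact hπ.up x hx z hz hxz
      · intro x hx hl z hz
        rcases Finset.mem_insert.1 hx with rfl | hx
        · exact absurd (hl _ (Finset.mem_insert_of_mem hm)) (not_le.2 ham)
        · rw [e3 x hx (fun w hw => hl w (Finset.mem_insert_of_mem hw))]
          rcases Finset.mem_insert.1 hz with rfl | hz
          · exact le_rfl
          · exact (ha z hz).le
      · rw [Equiv.Perm.sign_mul, Equiv.Perm.sign_swap (ne_of_lt ham), hπ.sgn,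
          Finset.card_insert_of_notMem has]
        rw [pow_succ _ (s.card + 1)]
        rw [mul_comm]
    · rw [Finset.not_nonempty_iff_eq_empty] at hs
      subst hs
      refine ⟨1, ?_, ?_, ?_, ?_, ?_⟩
      · intro x _
        rfl
      · intro x hx
        exact hx
      · intro x hx z hz hxz
        rw [Finset.mem_insert, or_iff_left (Finset.notMem_empty _)] at hx hz
        rw [hx, hz] at hxz
        exact absurd hxz (lt_irrefl _)
      · intro x hx _ z hz
        rw [Finset.mem_insert, or_iff_left (Finset.notMem_empty _)] at hx hz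
        rw [hx, hz]
        exact le_rfl
      · simp

/-- the cyclic permutation of `P` -/
noncomputable def cyc (P : Finset (Fin n)) : Equiv.Perm (Fin n) :=
  if h : P.Nonempty then (exists_isCyc P h).choose else 1

theorem isCyc_cyc {P : Finset (Fin n)} (h : P.Nonempty) : IsCyc P (cyc P) := by
  rw [cyc, dif_pos h]
  exact (exists_isCyc P h).choose_spec

section

variable {P P' : Finset (Fin n)} {a b x : Fin n}

/-- the step before `x` -/
theorem exists_pred (hP : P.Nonempty) (hx : x ∈ P) {y : Fin n} (hy : y ∈ P) (hyx : y < x) :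
    ∃ w ∈ P, cyc P w = x ∧ w < x ∧ ∀ z ∈ P, z < x → z ≤ w := by
  have h := isCyc_cyc hP
  refine ⟨(cyc P).symm x, ?_, Equiv.apply_symm_apply _ _, ?_, ?_⟩
  · by_contra h1
    have h2 := h.out _ h1
    rw [Equiv.apply_symm_apply] at h2
    rw [← h2] at h1
    exact h1 hx
  · by_contra h1
    have hw : (cyc P).symm x ∈ P := by
      by_contra h1
      have h2 := h.out _ h1
      rw [Equiv.apply_symm_apply] at h2
      rw [← h2] at h1
      exact h1 hx
    by_cases h2 : ∀ z ∈ P, z ≤ (cyc P).symm x
    · have h3 := h.last _ hw h2 y hy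
      rw [Equiv.apply_symm_apply] at h3
      exact absurd hyx (not_lt.2 h3)
    · push Not at h2
      obtain ⟨z, hz, hz'⟩ := h2
      have h3 := (h.up _ hw z hz hz').1
      rw [Equiv.apply_symm_apply] at h3
      exact h1 h3
  · intro z hz hzx
    by_contra h1
    have hw : (cyc P).symm x ∈ P := by
      by_contra h1
      have h2 := h.out _ h1
      rw [Equiv.apply_symm_apply] at h2
      rw [← h2] at h1
      exact h1 hx
    have h3 := (h.up _ hw z hz (not_le.1 h1)).2
    rw [Equiv.apply_symm_apply] at h3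
    exact absurd hzx (not_lt.2 h3)

/-- two sets which agree around a step have the same step -/
theorem cyc_congr (hP : P.Nonempty) (hP' : P'.Nonempty) (hx : x ∈ P) (hx' : x ∈ P')
    {z z' : Fin n} (hz : z ∈ P) (hz' : z' ∈ P') (hxz : x < z) (hxz' : x < z')
    (h1 : cyc P x ∈ P') (h2 : cyc P' x ∈ P) : cyc P x = cyc P' x := by
  have h := isCyc_cyc hP
  have h' := isCyc_cyc hP'
  apply le_antisymm
  · exact (h.up x hx _ h2 (h'.up x hx' z' hz' hxz').1).2
  · exact (h'.up x hx' _ h1 (h.up x hx z hz hxz).1).2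

/-- the part of `P` between `a` and `b` -/
def mid (a b : Fin n) (P : Finset (Fin n)) : Finset (Fin n) := P.filter fun d => a ≤ d ∧ d ≤ b

theorem mem_mid {d : Fin n} : d ∈ mid a b P ↔ d ∈ P ∧ a ≤ d ∧ d ≤ b := by
  rw [mid, Finset.mem_filter]

theorem cyc_mid (ha : a ∈ P) (hb : b ∈ P) (hx : x ∈ P) (hax : a ≤ x) (hxb : x < b) :
    cyc (mid a b P) x = cyc P x := by
  have hP : P.Nonempty := ⟨a, ha⟩
  have hM : (mid a b P).Nonempty := ⟨a, mem_mid.2 ⟨ha, le_rfl, hax.trans hxb.le⟩⟩
  have h := isCyc_cyc hP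
  have h' := isCyc_cyc hM
  have hxM : x ∈ mid a b P := mem_mid.2 ⟨hx, hax, hxb.le⟩
  have hbM : b ∈ mid a b P := mem_mid.2 ⟨hb, hax.trans hxb.le, le_rfl⟩
  apply cyc_congr hM hP hxM hx hbM hb hxb hxb
  · exact (mem_mid.1 (h'.mem x hxM)).1
  · have h1 := h.up x hx b hb hxb
    exact mem_mid.2 ⟨h.mem x hx, hax.trans h1.1.le, h1.2⟩

/-- number of elements of the three parts -/
theorem card_parts (ha : a ∈ P) (hb : b ∈ P) (hab : a < b) :
    P.card + 2 = (P.filter fun d => d ≤ a).card + (P.filter fun d => b ≤ d).card + (mid a b P).card := by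
  have h1 : P.card = (P.filter fun d => d ≤ a).card + (P.filter fun d => ¬ d ≤ a).card :=
    (Finset.card_filter_add_card_filter_not _).symm
  have h2 : (P.filter fun d => ¬ d ≤ a).card = ((P.filter fun d => ¬ d ≤ a).filter fun d => b ≤ d).card +
      ((P.filter fun d => ¬ d ≤ a).filter fun d => ¬ b ≤ d).card :=
    (Finset.card_filter_add_card_filter_not _).symm
  have h3 : (P.filter fun d => ¬ d ≤ a).filter (fun d => b ≤ d) = P.filter fun d => b ≤ d := by
    ext d
    simp only [Finset.mem_filter]
    constructor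
    · rintro ⟨⟨h3, -⟩, h4⟩
      exact ⟨h3, h4⟩
    · rintro ⟨h3, h4⟩
      exact ⟨⟨h3, not_le.2 (lt_of_lt_of_le hab h4)⟩, h4⟩
  have h4 : mid a b P = insert a (insert b ((P.filter fun d => ¬ d ≤ a).filter fun d => ¬ b ≤ d)) := by
    ext d
    simp only [mem_mid, Finset.mem_insert, Finset.mem_filter, not_le]
    constructor
    · rintro ⟨h4, h5, h6⟩
      rcases h5.eq_or_lt with h7 | h7
      · exact Or.inl h7.symm
      · rcases h6.eq_or_lt with h8 | h8
        · exact Or.inr (Or.inl h8)
        · exact Or.inr (Or.inr ⟨⟨h4, h7⟩, h8⟩)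
    · rintro (rfl | rfl | ⟨⟨h4, h5⟩, h6⟩)
      · exact ⟨ha, le_rfl, hab.le⟩
      · exact ⟨hb, hab.le, le_rfl⟩
      · exact ⟨h4, h5.le, h6.le⟩
  have h5 : a ∉ insert b ((P.filter fun d => ¬ d ≤ a).filter fun d => ¬ b ≤ d) := by
    simp [ne_of_lt hab]
  have h6 : b ∉ (P.filter fun d => ¬ d ≤ a).filter fun d => ¬ b ≤ d := by
    simp
  rw [h4, Finset.card_insert_of_notMem h5, Finset.card_insert_of_notMem h6, h1, h2, h3]
  ring

end

end Pool.Agent.H38.KL
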