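import Pool.Agent.H38.KL.Sel
import Pool.Agent.H38.KL.Cyc
import Pool.Agent.H30.KL.Gen.Nec2

/-!
# Shape of the terms of a minor which divide a path
-/

set_option autoImplicit false

open MvPolynomial Matrix Pool.Agent.H30.KL

namespace Pool.Agent.H38.KL

variable {n : ℕ} {u : Equiv.Perm (Fin n)} {c r : Fin n} {P P' : Finset (Fin n)} {i j : Fin n} {s : ℕ}
  {f g : Fin s → Fin n} {τ : Equiv.Perm (Fin s)}

/-- shape of a term -/
structure Shape (u : Equiv.Perm (Fin n)) (i j : Fin n) (P : Finset (Fin n)) {s : ℕ} (f g : Fin s → Fin n)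
    (τ : Equiv.Perm (Fin s)) (a b : Fin n) : Prop where
  ha : a ∈ P
  hb : b ∈ P
  ai : u a < i
  aj : a ≤ j
  bj : j < b
  bi : i ≤ u b
  int : ∀ d ∈ P, a < d → d < b → d ≤ j ∧ i ≤ u d
  G : Finset.univ.image g = insert a (NWs u i j)
  F : Finset.univ.image f = insert b (NWs u i j)
  sz : s = rk u i j + 1
  fit : ∀ y, f (τ y) = cyc (mid a b P) (g y)

theorem exists_shape (hP : IsPath u c r P) (hs : rk u i j < s) (hf : Function.Injective f)
    (hg : Function.Injective g) (hfi : ∀ x, i ≤ u (f x)) (hgj : ∀ y, g y ≤ j)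
    (hst : ∀ y, f (τ y) = g y ∨ (g y < f (τ y) ∧ u (g y) < u (f (τ y)) ∧ f (τ y) = cyc P (g y))) :
    ∃ a b, Shape u i j P f g τ a b := by
  have hPne : P.Nonempty := ⟨c, hP.1⟩
  have hc := isCyc_cyc hPne
  have hstep : ∀ y, f (τ y) ≠ g y → g y ∈ P ∧ g y < f (τ y) ∧ f (τ y) = cyc P (g y) := by
    intro y hy
    rcases hst y with h | h
    · exact absurd h hy
    · refine ⟨?_, h.1, h.2.2⟩
      by_contra h1
      have h2 := hc.out _ h1
      rw [h.2.2, h2] at hy
      exact hy rfl
  have key : ∀ x ∈ P, ∀ x' ∈ P, x < x' → cyc P x ≤ x' := fun x hx x' hx' h => (hc.up x hx x' hx' h).2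
  -- the columns
  obtain ⟨ya, hya⟩ : ∃ y, u (g y) < i := by
    by_contra hcon
    push Not at hcon
    have h1 : Finset.univ.image g ⊆ NWs u i j := by
      intro x hx
      obtain ⟨y, -, rfl⟩ := Finset.mem_image.1 hx
      exact mem_NWs.2 ⟨hgj y, hcon y⟩
    have h2 := Finset.card_le_card h1
    rw [image_card hg, card_NWs] at h2
    omega
  have hA : ∀ y, u (g y) < i → g y ∈ P ∧ g y < f (τ y) ∧ f (τ y) = cyc P (g y) := by
    intro y hy
    apply hstep
    intro h
    have h1 := hfi (τ y)
    rw [h] at h1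
    exact absurd h1 (not_le.2 hy)
  have hAu : ∀ y y', u (g y) < i → u (g y') < i → g y = g y' := by
    have h0 : ∀ y y', u (g y) < i → u (g y') < i → ¬ g y < g y' := by
      intro y y' h1 h2 h3
      have h4 := key _ (hA y h1).1 _ (hA y' h2).1 h3
      have h5 : f (τ y) ∈ P := by
        rw [(hA y h1).2.2]
        exact hc.mem _ (hA y h1).1
      rw [← (hA y h1).2.2] at h4
      have h6 := hP.mono h5 (hA y' h2).1 h4
      exact absurd ((hfi _).trans h6) (not_le.2 h2)
    intro y y' h1 h2
    exact le_antisymm (not_lt.1 (h0 y' y h2 h1)) (not_lt.1 (h0 y y' h1 h2))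
  have haN : g ya ∉ NWs u i j := fun h => absurd (mem_NWs.1 h).2 (not_le.2 hya)
  have hG : Finset.univ.image g = insert (g ya) (NWs u i j) := by
    apply Finset.eq_of_subset_of_card_le
    · intro x hx
      obtain ⟨y, -, rfl⟩ := Finset.mem_image.1 hx
      by_cases h : i ≤ u (g y)
      · exact Finset.mem_insert_of_mem (mem_NWs.2 ⟨hgj y, h⟩)
      · rw [hAu y ya (not_le.1 h) hya]
        exact Finset.mem_insert_self _ _
    · rw [image_card hg]
      refine (Finset.card_insert_le _ _).trans ?_
      rw [card_NWs]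
      omega
  have hsz : s = rk u i j + 1 := by
    have h := congrArg Finset.card hG
    rw [image_card hg, Finset.card_insert_of_notMem haN, card_NWs] at h
    exact h
  -- the rows
  obtain ⟨yb, hyb⟩ : ∃ y, j < f (τ y) := by
    by_contra hcon
    push Not at hcon
    have h1 : Finset.univ.image f ⊆ NWs u i j := by
      intro x hx
      obtain ⟨y, -, rfl⟩ := Finset.mem_image.1 hx
      refine mem_NWs.2 ⟨?_, hfi y⟩
      have h2 := hcon (τ.symm y)
      rwa [Equiv.apply_symm_apply] at h2
    have h2 := Finset.card_le_card h1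
    rw [image_card hf, card_NWs] at h2
    omega
  have hB : ∀ y, j < f (τ y) → g y ∈ P ∧ g y < f (τ y) ∧ f (τ y) = cyc P (g y) := by
    intro y hy
    apply hstep
    intro h
    rw [h] at hy
    exact absurd (hgj y) (not_le.2 hy)
  have hBu : ∀ y y', j < f (τ y) → j < f (τ y') → g y = g y' := by
    have h0 : ∀ y y', j < f (τ y) → j < f (τ y') → ¬ g y < g y' := by
      intro y y' h1 h2 h3
      have h4 := key _ (hB y h1).1 _ (hB y' h2).1 h3
      rw [← (hB y h1).2.2] at h4
      exact absurd (h4.trans (hgj y')) (not_le.2 h1)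
    intro y y' h1 h2
    exact le_antisymm (not_lt.1 (h0 y' y h2 h1)) (not_lt.1 (h0 y y' h1 h2))
  have hF : Finset.univ.image f = insert (f (τ yb)) (NWs u i j) := by
    apply Finset.eq_of_subset_of_card_le
    · intro x hx
      obtain ⟨z, -, rfl⟩ := Finset.mem_image.1 hx
      have hz : τ (τ.symm z) = z := Equiv.apply_symm_apply _ _
      by_cases h : f z ≤ j
      · exact Finset.mem_insert_of_mem (mem_NWs.2 ⟨h, hfi z⟩)
      · have h1 := hBu (τ.symm z) yb (by rw [hz]; exact not_le.1 h) hyb
        rw [← hg h1, hz]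
        exact Finset.mem_insert_self _ _
    · rw [image_card hf]
      refine (Finset.card_insert_le _ _).trans ?_
      rw [card_NWs]
      omega
  have hbP : f (τ yb) ∈ P := by
    rw [(hB yb hyb).2.2]
    exact hc.mem _ (hB yb hyb).1
  have hint : ∀ d ∈ P, g ya < d → d < f (τ yb) → d ≤ j ∧ i ≤ u d := by
    intro d hd h1 h2
    constructor
    · by_contra h3
      have h4 : g yb < d := lt_of_le_of_lt (hgj yb) (not_le.1 h3)
      have h5 := key _ (hB yb hyb).1 d hd h4
      rw [← (hB yb hyb).2.2] at h5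
      exact absurd h2 (not_lt.2 h5)
    · have h4 := key _ (hA ya hya).1 d hd h1
      have h5 : f (τ ya) ∈ P := by
        rw [(hA ya hya).2.2]
        exact hc.mem _ (hA ya hya).1
      rw [← (hA ya hya).2.2] at h4
      exact (hfi _).trans (hP.mono h5 hd h4)
  have hlow : ∀ x ∈ P, i ≤ u x → g ya < x := by
    intro x hx h1
    by_contra h2
    exact absurd (h1.trans (hP.mono hx (hA ya hya).1 (not_lt.1 h2))) (not_le.2 hya)
  have hE : ∀ m : ℕ, ∀ y, ((g y : Fin n) : ℕ) = m → g y ∈ P → f (τ y) = cyc P (g y) := by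
    intro m
    induction m using Nat.strong_induction_on with
    | _ m ih =>
      intro y hym hyP
      by_cases h1 : f (τ y) = g y
      · exfalso
        have h2 : i ≤ u (g y) := by
          rw [← h1]
          exact hfi _
        have h3 := hlow _ hyP h2
        obtain ⟨w, hw, hw1, hw2, hw3⟩ := exists_pred hPne hyP (hA ya hya).1 h3
        have h4 := hw3 _ (hA ya hya).1 h3
        have h5 : w ∈ Finset.univ.image g := by
          rw [hG, Finset.mem_insert]
          rcases h4.eq_or_lt with h6 | h6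
          · exact Or.inl h6.symm
          · right
            have h7 := hint w hw h6 (hw2.trans (lt_of_le_of_lt (hgj y) hyb))
            exact mem_NWs.2 h7
        obtain ⟨y', -, hy'⟩ := Finset.mem_image.1 h5
        have h6 := ih (g y' : ℕ) (by rw [← hym, hy']; exact hw2) y' rfl (by rw [hy']; exact hw)
        rw [hy', hw1, ← h1] at h6
        have h7 := τ.injective (hf h6)
        rw [← hy', h7] at hw2
        exact lt_irrefl _ hw2
      · exact (hstep y h1).2.2
  refine ⟨g ya, f (τ yb), (hA ya hya).1, hbP, hya, hgj ya, hyb, hfi _, hint, hG, hF, hsz, ?_⟩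
  intro y
  by_cases hyP : g y ∈ P
  · have h1 : g ya ≤ g y := by
      have h2 : g y ∈ insert (g ya) (NWs u i j) := by
        rw [← hG]
        exact Finset.mem_image_of_mem g (Finset.mem_univ y)
      rcases Finset.mem_insert.1 h2 with h3 | h3
      · rw [h3]
      · exact (hlow _ hyP (mem_NWs.1 h3).2).le
    rw [cyc_mid (hA ya hya).1 hbP hyP h1 (lt_of_le_of_lt (hgj y) hyb)]
    exact hE _ y rfl hyP
  · have h1 : f (τ y) = g y := by
      by_contra h2
      exact hyP (hstep y h2).1
    rw [h1, (isCyc_cyc ⟨g ya, mem_mid.2 ⟨(hA ya hya).1, le_rfl, (hgj ya).trans hyb.le⟩⟩).out _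
      (fun h2 => hyP (mem_mid.1 h2).1)]

end Pool.Agent.H38.KL
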