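import Pool.Agent.H38.KL.Con1

/-!
# Exponents, existence and signs of the terms
-/

set_option autoImplicit false

open MvPolynomial Matrix Pool.Agent.H30.KL

namespace Pool.Agent.H38.KL

variable {n : ℕ} {u : Equiv.Perm (Fin n)} {c r : Fin n} {P P' : Finset (Fin n)} {i j a b : Fin n} {s : ℕ}
  {f g : Fin s → Fin n} {τ τ' : Equiv.Perm (Fin s)} {e : Free u →₀ ℕ}

/-- the part of the path between `a` and `b` lies in the box -/
structure Dt (u : Equiv.Perm (Fin n)) (i j a b : Fin n) (P : Finset (Fin n)) : Prop where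
  ha : a ∈ P
  hb : b ∈ P
  ai : u a < i
  aj : a ≤ j
  bj : j < b
  bi : i ≤ u b
  int : ∀ d ∈ P, a < d → d < b → d ≤ j ∧ i ≤ u d

theorem Shape.dt (h : Shape u i j P f g τ a b) : Dt u i j a b P :=
  ⟨h.ha, h.hb, h.ai, h.aj, h.bj, h.bi, h.int⟩

namespace Dt

variable (h : Dt u i j a b P)

include h

theorem ab : a < b := lt_of_le_of_lt h.aj h.bj

theorem aM : a ∈ mid a b P := mem_mid.2 ⟨h.ha, le_rfl, h.ab.le⟩

theorem bM : b ∈ mid a b P := mem_mid.2 ⟨h.hb, h.ab.le, le_rfl⟩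

theorem isCyc : IsCyc (mid a b P) (cyc (mid a b P)) := isCyc_cyc ⟨a, h.aM⟩

theorem isCycP : IsCyc P (cyc P) := isCyc_cyc ⟨a, h.ha⟩

theorem cyc_b : cyc (mid a b P) b = a := by
  apply le_antisymm
  · exact h.isCyc.last b h.bM (fun z hz => (mem_mid.1 hz).2.2) a h.aM
  · exact (mem_mid.1 (h.isCyc.mem b h.bM)).2.1

theorem cases {x : Fin n} (hx : x ∈ mid a b P) : x = a ∨ x = b ∨ (a < x ∧ x < b ∧ x ∈ NWs u i j) := by
  obtain ⟨h1, h2, h3⟩ := mem_mid.1 hx
  rcases h2.eq_or_lt with h4 | h4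
  · exact Or.inl h4.symm
  · rcases h3.eq_or_lt with h5 | h5
    · exact Or.inr (Or.inl h5)
    · exact Or.inr (Or.inr ⟨h4, h5, mem_NWs.2 (h.int x h1 h4 h5)⟩)

theorem cyc_up {x : Fin n} (hx : x ∈ mid a b P) (hxb : x < b) : x < cyc (mid a b P) x :=
  (h.isCyc.up x hx b h.bM hxb).1

theorem mon_out {x : Fin n} (hx : x ∉ insert a (NWs u i j)) : mon u x (cyc (mid a b P) x) = 0 := by
  rw [Finset.mem_insert, not_or] at hx
  apply mon_of_not
  rintro ⟨h1, -⟩
  by_cases h2 : x ∈ mid a b P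
  · rcases h.cases h2 with h3 | h3 | h3
    · exact hx.1 h3
    · rw [h3, h.cyc_b] at h1
      exact absurd h1 (not_lt.2 h.ab.le)
    · exact hx.2 h3.2.2
  · rw [h.isCyc.out x h2] at h1
    exact lt_irrefl _ h1

theorem map_mem {x : Fin n} (hx : x ∈ insert a (NWs u i j)) :
    cyc (mid a b P) x ∈ insert b (NWs u i j) := by
  rw [Finset.mem_insert] at hx ⊢
  by_cases h2 : x ∈ mid a b P
  · have hxb : x < b := by
      rcases hx with h3 | h3
      · rw [h3]
        exact h.ab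
      · exact lt_of_le_of_lt (mem_NWs.1 h3).1 h.bj
    have h3 := h.cyc_up h2 hxb
    rcases h.cases (h.isCyc.mem x h2) with h4 | h4 | h4
    · rw [h4] at h3
      exact absurd h3 (not_lt.2 (mem_mid.1 h2).2.1)
    · exact Or.inl h4
    · exact Or.inr h4.2.2
  · rw [h.isCyc.out x h2]
    rcases hx with h3 | h3
    · rw [h3] at h2
      exact absurd h.aM h2
    · exact Or.inr h3

theorem nz (hP : IsPath u c r P) {x : Fin n} (hx : x ∈ insert a (NWs u i j)) :
    Zmat u (u (cyc (mid a b P) x)) x ≠ 0 := by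
  by_cases h2 : x ∈ mid a b P
  · have hxb : x < b := by
      rcases Finset.mem_insert.1 hx with h3 | h3
      · rw [h3]
        exact h.ab
      · exact lt_of_le_of_lt (mem_NWs.1 h3).1 h.bj
    have h3 := h.cyc_up h2 hxb
    have h4 := hP.2.2.2 x (mem_mid.1 h2).1 _ (mem_mid.1 (h.isCyc.mem x h2)).1 h3
    rw [Zmat, Matrix.of_apply, dif_pos ⟨h4, by rw [Equiv.symm_apply_apply]; exact h3⟩]
    exact X_ne_zero _
  · rw [h.isCyc.out x h2, entry_diag]
    exact one_ne_zero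

theorem sum_mon (hg : Function.Injective g) (hG : Finset.univ.image g = insert a (NWs u i j))
    (hfit : ∀ y, f (τ y) = cyc (mid a b P) (g y)) :
    ∑ y, mon u (g y) (f (τ y)) = mexp u (cyc (mid a b P)) := by
  have h1 : ∑ y, mon u (g y) (f (τ y)) =
      ∑ k ∈ Finset.univ.image g, mon u k (cyc (mid a b P) k) := by
    rw [Finset.sum_image (fun x _ y _ h => hg h)]
    apply Finset.sum_congr rfl
    intro y _
    rw [hfit y]
  rw [h1, mexp, hG]
  apply Finset.sum_subset (Finset.subset_univ _)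
  intro k _ hk
  exact h.mon_out hk

theorem ind {x y : Fin n} (hxy : x < y) :
    (if x ∈ P ∧ (x < a ∨ b ≤ x) ∧ cyc P x = y then 1 else 0) + (if cyc (mid a b P) x = y then 1 else 0) =
      (if cyc P x = y then 1 else 0 : ℕ) := by
  by_cases hx : x ∈ P
  · by_cases h1 : a ≤ x ∧ x < b
    · rw [cyc_mid h.ha h.hb hx h1.1 h1.2, if_neg, zero_add]
      rintro ⟨-, h2 | h2, -⟩
      · exact absurd h1.1 (not_le.2 h2)
      · exact absurd h1.2 (not_lt.2 h2)
    · have h2 : x < a ∨ b ≤ x := by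
        by_contra h3
        push Not at h3
        exact h1 h3
      have h3 : cyc (mid a b P) x ≠ y := by
        rcases h2 with h2 | h2
        · rw [h.isCyc.out x (fun h3 => absurd (mem_mid.1 h3).2.1 (not_le.2 h2))]
          exact ne_of_lt hxy
        · rcases h2.eq_or_lt with h3 | h3
          · rw [← h3, h.cyc_b]
            rw [← h3] at hxy
            exact ne_of_lt (h.ab.trans hxy)
          · rw [h.isCyc.out x (fun h4 => absurd (mem_mid.1 h4).2.2 (not_le.2 h3))]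
            exact ne_of_lt hxy
      simp only [hx, h2, h3, true_and, if_false, add_zero]
  · have h1 : cyc P x ≠ y := by
      rw [h.isCycP.out x hx]
      exact ne_of_lt hxy
    have h2 : cyc (mid a b P) x ≠ y := by
      rw [h.isCyc.out x (fun h4 => hx (mem_mid.1 h4).1)]
      exact ne_of_lt hxy
    simp [hx, h1, h2]

theorem e_apply (he : e + mexp u (cyc (mid a b P)) = mexp u (cyc P)) {x y : Fin n}
    (hxy : x < y ∧ u x < u y) :
    e (pr u x y hxy) = if x ∈ P ∧ (x < a ∨ b ≤ x) ∧ cyc P x = y then 1 else 0 := by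
  have h1 := DFunLike.congr_fun he (pr u x y hxy)
  rw [Finsupp.add_apply, mexp_apply, mexp_apply] at h1
  have h2 := h.ind hxy.1
  omega

theorem transfer_one (h' : Dt u i j a b P')
    (h1 : P.filter (fun d => d ≤ a) = P'.filter fun d => d ≤ a)
    (h2 : P.filter (fun d => b ≤ d) = P'.filter fun d => b ≤ d) {x y : Fin n} (hxy : x < y) :
    (x ∈ P ∧ (x < a ∨ b ≤ x) ∧ cyc P x = y) → (x ∈ P' ∧ (x < a ∨ b ≤ x) ∧ cyc P' x = y) := by
  rintro ⟨hx, hxa, hy⟩
  have e1 : ∀ d, d ∈ P ∧ d ≤ a ↔ d ∈ P' ∧ d ≤ a := by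
    intro d
    have h3 := Finset.ext_iff.1 h1 d
    rwa [Finset.mem_filter, Finset.mem_filter] at h3
  have e2 : ∀ d, d ∈ P ∧ b ≤ d ↔ d ∈ P' ∧ b ≤ d := by
    intro d
    have h3 := Finset.ext_iff.1 h2 d
    rwa [Finset.mem_filter, Finset.mem_filter] at h3
  have hc := h.isCycP
  have hc' := h'.isCycP
  rcases hxa with hxa | hxb
  · have hx' := ((e1 x).1 ⟨hx, hxa.le⟩).1
    have h3 := hc.up x hx a h.ha hxa
    have h4 := hc'.up x hx' a h'.ha hxa
    refine ⟨hx', Or.inl hxa, ?_⟩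
    rw [← hy]
    exact (cyc_congr ⟨a, h.ha⟩ ⟨a, h'.ha⟩ hx hx' h.ha h'.ha hxa hxa
      ((e1 _).1 ⟨hc.mem x hx, h3.2⟩).1 ((e1 _).2 ⟨hc'.mem x hx', h4.2⟩).1).symm
  · have hx' := ((e2 x).1 ⟨hx, hxb⟩).1
    have hyP : y ∈ P := by
      rw [← hy]
      exact hc.mem x hx
    have hyP' := ((e2 y).1 ⟨hyP, hxb.trans hxy.le⟩).1
    have h4 := hc'.up x hx' y hyP' hxy
    refine ⟨hx', Or.inr hxb, ?_⟩
    have h5 := cyc_congr ⟨a, h.ha⟩ ⟨a, h'.ha⟩ hx hx' hyP hyP' hxy hxy
      (by rw [hy]; exact hyP') ((e2 _).2 ⟨hc'.mem x hx', hxb.trans h4.1.le⟩).1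
    rw [← h5, hy]

theorem e_transfer (h' : Dt u i j a b P')
    (h1 : P.filter (fun d => d ≤ a) = P'.filter fun d => d ≤ a)
    (h2 : P.filter (fun d => b ≤ d) = P'.filter fun d => b ≤ d)
    (he : e + mexp u (cyc (mid a b P)) = mexp u (cyc P)) :
    e + mexp u (cyc (mid a b P')) = mexp u (cyc P') := by
  ext p
  obtain ⟨x, y, hxy, rfl⟩ := exists_pr u p
  rw [Finsupp.add_apply, mexp_apply, mexp_apply, h.e_apply he hxy, ← h'.ind hxy.1]
  have h3 : (x ∈ P ∧ (x < a ∨ b ≤ x) ∧ cyc P x = y) ↔ (x ∈ P' ∧ (x < a ∨ b ≤ x) ∧ cyc P' x = y) :=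
    ⟨h.transfer_one h' h1 h2 hxy.1, h'.transfer_one h h1.symm h2.symm hxy.1⟩
  simp only [h3]

theorem theta_sub (hP : IsPath u c r P) (h' : Dt u i j a b P')
    (he : e + mexp u (cyc (mid a b P)) = mexp u (cyc P))
    (he' : e + mexp u (cyc (mid a b P')) = mexp u (cyc P')) {x : Fin n} (hx : x ∈ P)
    (hxab : x ≤ a ∨ b ≤ x) : x ∈ P' := by
  have hc := h.isCycP
  have key : ∀ w y, w ∈ P → (w < a ∨ b ≤ w) → cyc P w = y → w < y → w ∈ P' ∧ y ∈ P' := by
    intro w y hw hwab hwy hlt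
    have hyP : y ∈ P := by
      rw [← hwy]
      exact hc.mem w hw
    have hu : u w < u y := hP.2.2.2 w hw y hyP hlt
    have h1 := h.e_apply he ⟨hlt, hu⟩
    have h2 := h'.e_apply he' ⟨hlt, hu⟩
    rw [if_pos ⟨hw, hwab, hwy⟩] at h1
    rw [h1] at h2
    by_cases h3 : w ∈ P' ∧ (w < a ∨ b ≤ w) ∧ cyc P' w = y
    · refine ⟨h3.1, ?_⟩
      rw [← h3.2.2]
      exact h'.isCycP.mem w h3.1
    · rw [if_neg h3] at h2
      exact absurd h2 one_ne_zero
  rcases hxab with h1 | h1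
  · rcases h1.eq_or_lt with h2 | h2
    · rw [h2]
      exact h'.ha
    · exact (key x _ hx (Or.inl h2) rfl (hc.up x hx a h.ha h2).1).1
  · rcases h1.eq_or_lt with h2 | h2
    · rw [← h2]
      exact h'.hb
    · obtain ⟨w, hw, hw1, hw2, hw3⟩ := exists_pred ⟨a, h.ha⟩ hx h.hb h2
      exact (key w x hw (Or.inr (hw3 b h.hb h2)) hw1 hw2).2

theorem theta_eq (hP : IsPath u c r P) (hP' : IsPath u c r P') (h' : Dt u i j a b P')
    (he : e + mexp u (cyc (mid a b P)) = mexp u (cyc P))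
    (he' : e + mexp u (cyc (mid a b P')) = mexp u (cyc P')) :
    P'.filter (fun d => d ≤ a) = P.filter (fun d => d ≤ a) ∧
      P'.filter (fun d => b ≤ d) = P.filter (fun d => b ≤ d) := by
  constructor
  · ext x
    rw [Finset.mem_filter, Finset.mem_filter]
    exact ⟨fun h1 => ⟨h'.theta_sub hP' h he' he h1.1 (Or.inl h1.2), h1.2⟩,
      fun h1 => ⟨h.theta_sub hP h' he he' h1.1 (Or.inl h1.2), h1.2⟩⟩
  · ext x
    rw [Finset.mem_filter, Finset.mem_filter]
    exact ⟨fun h1 => ⟨h'.theta_sub hP' h he' he h1.1 (Or.inr h1.2), h1.2⟩,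
      fun h1 => ⟨h.theta_sub hP h' he he' h1.1 (Or.inr h1.2), h1.2⟩⟩

theorem exists_tau (hg : Function.Injective g)
    (hG : Finset.univ.image g = insert a (NWs u i j)) (hF : Finset.univ.image f = insert b (NWs u i j)) :
    ∃ τ : Equiv.Perm (Fin s), ∀ y, f (τ y) = cyc (mid a b P) (g y) := by
  have h1 : ∀ y, ∃ z, f z = cyc (mid a b P) (g y) := by
    intro y
    have h2 : cyc (mid a b P) (g y) ∈ Finset.univ.image f := by
      rw [hF]
      apply h.map_mem
      rw [← hG]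
      exact Finset.mem_image_of_mem g (Finset.mem_univ y)
    obtain ⟨z, -, hz⟩ := Finset.mem_image.1 h2
    exact ⟨z, hz⟩
  choose t ht using h1
  have hinj : Function.Injective t := by
    intro x y hxy
    apply hg
    apply (cyc (mid a b P)).injective
    rw [← ht, ← ht, hxy]
  exact ⟨Equiv.ofBijective t (Finite.injective_iff_bijective.1 hinj), fun y => ht y⟩

theorem sign_rel (h' : Dt u i j a b P') (hf : Function.Injective f)
    (hF : Finset.univ.image f = insert b (NWs u i j)) (hτ : ∀ y, f (τ y) = cyc (mid a b P) (g y))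
    (hτ' : ∀ y, f (τ' y) = cyc (mid a b P') (g y)) :
    Equiv.Perm.sign τ' = Equiv.Perm.sign τ *
      (Equiv.Perm.sign (cyc (mid a b P)) * Equiv.Perm.sign (cyc (mid a b P'))) := by
  have h1 : (τ' * τ⁻¹).viaFintypeEmbedding ⟨f, hf⟩ = cyc (mid a b P') * (cyc (mid a b P))⁻¹ := by
    ext1 x
    by_cases hx : x ∈ Set.range (⟨f, hf⟩ : Fin s ↪ Fin n)
    · obtain ⟨z, rfl⟩ := hx
      rw [Equiv.Perm.viaFintypeEmbedding_apply_image]
      have h2 : (cyc (mid a b P))⁻¹ (f z) = g (τ⁻¹ z) := by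
        rw [Equiv.Perm.inv_eq_iff_eq, ← hτ]
        simp
      show f ((τ' * τ⁻¹) z) = (cyc (mid a b P') * (cyc (mid a b P))⁻¹) (f z)
      rw [Equiv.Perm.mul_apply, Equiv.Perm.mul_apply, h2, hτ']
    · rw [Equiv.Perm.viaFintypeEmbedding_apply_notMem_range _ _ hx]
      have hx2 : x ∉ insert b (NWs u i j) := by
        rw [← hF]
        intro h3
        obtain ⟨z, -, hz⟩ := Finset.mem_image.1 h3
        exact hx ⟨z, hz⟩
      rw [Finset.mem_insert, not_or] at hx2
      rw [Equiv.Perm.mul_apply]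
      by_cases hxa : x = a
      · have h2 : (cyc (mid a b P))⁻¹ x = b := by
          rw [Equiv.Perm.inv_eq_iff_eq, h.cyc_b, hxa]
        rw [h2, h'.cyc_b, hxa]
      · have h3 : x ∉ mid a b P := by
          intro h4
          rcases h.cases h4 with h5 | h5 | h5
          · exact hxa h5
          · exact hx2.1 h5
          · exact hx2.2 h5.2.2
        have h3' : x ∉ mid a b P' := by
          intro h4
          rcases h'.cases h4 with h5 | h5 | h5
          · exact hxa h5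
          · exact hx2.1 h5
          · exact hx2.2 h5.2.2
        have h2 : (cyc (mid a b P))⁻¹ x = x := by
          rw [Equiv.Perm.inv_eq_iff_eq, h.isCyc.out x h3]
        rw [h2, h'.isCyc.out x h3']
  have h2 := congrArg Equiv.Perm.sign h1
  rw [Equiv.Perm.viaFintypeEmbedding_sign, Equiv.Perm.sign_mul, Equiv.Perm.sign_mul, Equiv.Perm.sign_inv,
    Equiv.Perm.sign_inv] at h2
  have h3 : Equiv.Perm.sign τ * Equiv.Perm.sign τ = 1 := Int.units_mul_self _
  calc Equiv.Perm.sign τ' = Equiv.Perm.sign τ' * Equiv.Perm.sign τ * Equiv.Perm.sign τ := by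
        rw [mul_assoc, h3, mul_one]
    _ = _ := by
        rw [h2]
        rw [mul_comm, mul_comm (Equiv.Perm.sign (cyc (mid a b P')))]

end Dt

end Pool.Agent.H38.KL
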