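import Pool.Agent.H38.KL.Con2
import Pool.Agent.H30.KL.Gen.Nec

/-!
# Coefficients of the generators at the paths
-/

set_option autoImplicit false

open MvPolynomial Matrix Pool.Agent.H30.KL

namespace Pool.Agent.H38.KL

variable {n : ℕ} {u v : Equiv.Perm (Fin n)} {c r : Fin n} {P P₀ : Finset (Fin n)} {i j a b : Fin n} {s : ℕ}
  {f g : Fin s → Fin n} {τ τ₀ : Equiv.Perm (Fin s)} {e : Free u →₀ ℕ}

/-- the term of `τ` of the minor, multiplied by the monomial `e`, is the monomial of the path -/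
def Term (u : Equiv.Perm (Fin n)) (P : Finset (Fin n)) (e : Free u →₀ ℕ) {s : ℕ} (f g : Fin s → Fin n)
    (τ : Equiv.Perm (Fin s)) : Prop :=
  (∀ y, Zmat u (u (f (τ y))) (g y) ≠ 0) ∧ e + ∑ y, mon u (g y) (f (τ y)) = mexp u (cyc P)

open Classical in
theorem coeff_eq (P : Finset (Fin n)) (e : Free u →₀ ℕ) (k : ℂ) :
    coeff (mexp u (cyc P)) (monomial e k * Dm u f g) =
      k * ∑ τ : Equiv.Perm (Fin s), ((Equiv.Perm.sign τ : ℤ) : ℂ) * if Term u P e f g τ then 1 else 0 := by
  rw [coeff_monomial_mul']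
  by_cases he : e ≤ mexp u (cyc P)
  · rw [if_pos he, coeff_Dm]
    congr 1
    apply Finset.sum_congr rfl
    intro τ _
    congr 1
    by_cases hT : Term u P e f g τ
    · rw [if_pos hT, term_eq_monomial hT.1, coeff_monomial, if_pos]
      rw [← hT.2, add_tsub_cancel_left]
    · rw [if_neg hT, coeff_term_of_ne]
      rintro ⟨h1, h2⟩
      apply hT
      refine ⟨h1, ?_⟩
      rw [h2, add_tsub_cancel_of_le he]
  · rw [if_neg he]
    symm
    apply mul_eq_zero_of_right
    apply Finset.sum_eq_zero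
    intro τ _
    rw [if_neg, mul_zero]
    rintro ⟨-, h2⟩
    apply he
    rw [← h2]
    exact le_self_add

theorem Term.shape (hT : Term u P e f g τ) (hP : IsPath u c r P) (hs : rk u i j < s)
    (hf : Function.Injective f) (hg : Function.Injective g) (hfi : ∀ x, i ≤ u (f x)) (hgj : ∀ y, g y ≤ j) :
    ∃ a b, Shape u i j P f g τ a b ∧ e + mexp u (cyc (mid a b P)) = mexp u (cyc P) := by
  obtain ⟨a, b, h⟩ := exists_shape (τ := τ) hP hs hf hg hfi hgj (fun y => term_step hT.1 hT.2 y)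
  refine ⟨a, b, h, ?_⟩
  rw [← hT.2, h.dt.sum_mon hg h.G h.fit]

/-- the sign at the reference path -/
noncomputable def sg (a b : Fin n) (P₀ : Finset (Fin n)) (τ₀ : Equiv.Perm (Fin s)) : ℂ :=
  ((Equiv.Perm.sign τ₀ : ℤ) : ℂ) * ((Equiv.Perm.sign (cyc (mid a b P₀)) : ℤ) : ℂ) *
    (-1) ^ ((P₀.filter fun d => d ≤ a).card + (P₀.filter fun d => b ≤ d).card + 1)

theorem sg_ne_zero (a b : Fin n) (P₀ : Finset (Fin n)) (τ₀ : Equiv.Perm (Fin s)) : sg a b P₀ τ₀ ≠ 0 := by
  have h1 : ∀ x : ℤˣ, (((x : ℤˣ) : ℤ) : ℂ) ≠ 0 := by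
    intro x
    rw [Int.cast_ne_zero]
    exact x.ne_zero
  exact mul_ne_zero (mul_ne_zero (h1 _) (h1 _)) (pow_ne_zero _ (by norm_num))

open Classical in
theorem coeff_core (hs : rk u i j < s) (hf : Function.Injective f) (hg : Function.Injective g)
    (hfi : ∀ x, i ≤ u (f x)) (hgj : ∀ y, g y ≤ j) (hP₀ : IsPath u c r P₀)
    (h₀ : Shape u i j P₀ f g τ₀ a b) (he : e + mexp u (cyc (mid a b P₀)) = mexp u (cyc P₀)) (k : ℂ)
    (hP : IsPath u c r P) :
    (-1) ^ P.card * coeff (mexp u (cyc P)) (monomial e k * Dm u f g) =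
      if Blk u i j a b (P₀.filter fun d => d ≤ a) (P₀.filter fun d => b ≤ d) P then
        k * sg a b P₀ τ₀ else 0 := by
  have haN : a ∉ NWs u i j := fun h => absurd (mem_NWs.1 h).2 (not_le.2 h₀.ai)
  have hbN : b ∉ NWs u i j := fun h => absurd (mem_NWs.1 h).1 (not_le.2 h₀.bj)
  -- any term has the same ends
  have hends : ∀ τ, Term u P e f g τ → Shape u i j P f g τ a b ∧
      e + mexp u (cyc (mid a b P)) = mexp u (cyc P) := by
    intro τ hT
    obtain ⟨a', b', h1, h2⟩ := hT.shape hP hs hf hg hfi hgj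
    have h3 : a' = a := by
      have h4 := h1.G.symm.trans h₀.G
      have h5 : a' ∈ insert a (NWs u i j) := by
        rw [← h4]
        exact Finset.mem_insert_self _ _
      rcases Finset.mem_insert.1 h5 with h6 | h6
      · exact h6
      · exact absurd (mem_NWs.1 h6).2 (not_le.2 h1.ai)
    have h3' : b' = b := by
      have h4 := h1.F.symm.trans h₀.F
      have h5 : b' ∈ insert b (NWs u i j) := by
        rw [← h4]
        exact Finset.mem_insert_self _ _
      rcases Finset.mem_insert.1 h5 with h6 | h6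
      · exact h6
      · exact absurd (mem_NWs.1 h6).1 (not_le.2 h1.bj)
    rw [h3, h3'] at h1 h2
    exact ⟨h1, h2⟩
  rw [coeff_eq]
  by_cases hB : Blk u i j a b (P₀.filter fun d => d ≤ a) (P₀.filter fun d => b ≤ d) P
  · rw [if_pos hB]
    have hd : Dt u i j a b P := ⟨hB.1, hB.2.1, h₀.ai, h₀.aj, h₀.bj, h₀.bi, hB.2.2.2.2⟩
    have he' := h₀.dt.e_transfer hd hB.2.2.1.symm hB.2.2.2.1.symm he
    obtain ⟨τ₁, hτ₁⟩ := hd.exists_tau hg h₀.G h₀.F
    have hT₁ : Term u P e f g τ₁ := by
      refine ⟨fun y => ?_, ?_⟩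
      · rw [hτ₁ y]
        apply hd.nz hP
        rw [← h₀.G]
        exact Finset.mem_image_of_mem g (Finset.mem_univ y)
      · rw [hd.sum_mon hg h₀.G hτ₁, he']
    rw [Finset.sum_eq_single τ₁]
    · rw [if_pos hT₁, mul_one, h₀.dt.sign_rel hd hf h₀.F h₀.fit hτ₁, sg]
      have h1 := card_parts hB.1 hB.2.1 hd.ab
      rw [hB.2.2.1, hB.2.2.2.1] at h1
      have h2 : (((Equiv.Perm.sign (cyc (mid a b P)) : ℤˣ) : ℤ) : ℂ) = (-1) ^ ((mid a b P).card + 1) := by
        rw [hd.isCyc.sgn]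
        push_cast
        ring
      have h3 : (-1 : ℂ) ^ P.card * (-1) ^ ((mid a b P).card + 1) =
          (-1) ^ ((P₀.filter fun d => d ≤ a).card + (P₀.filter fun d => b ≤ d).card + 1) := by
        rw [← pow_add]
        have h4 : P.card + ((mid a b P).card + 1) + 2 =
            ((P₀.filter fun d => d ≤ a).card + (P₀.filter fun d => b ≤ d).card + 1) +
              2 * (mid a b P).card := by omega
        have h5 : (-1 : ℂ) ^ (P.card + ((mid a b P).card + 1) + 2) =
            (-1) ^ (P.card + ((mid a b P).card + 1)) := by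
          rw [pow_add _ _ 2]
          norm_num
        rw [← h5, h4, pow_add _ _ (2 * _), pow_mul]
        norm_num
      push_cast
      rw [h2, ← h3]
      ring
    · intro τ _ hne
      rw [if_neg, mul_zero]
      intro hT
      apply hne
      ext1 y
      apply hf
      rw [(hends τ hT).1.fit y, hτ₁ y]
    · intro h
      exact absurd (Finset.mem_univ _) h
  · rw [if_neg hB]
    apply mul_eq_zero_of_right
    apply mul_eq_zero_of_right
    apply Finset.sum_eq_zero
    intro τ _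
    rw [if_neg, mul_zero]
    intro hT
    apply hB
    obtain ⟨h1, h2⟩ := hends τ hT
    obtain ⟨h3, h4⟩ := h₀.dt.theta_eq hP₀ hP h1.dt he h2
    exact ⟨h1.ha, h1.hb, h3, h4, h1.int⟩

/-- the functional -/
noncomputable def Phi (u : Equiv.Perm (Fin n)) (w : Finset (Fin n) → ℤ) (p : MvPolynomial (Free u) ℂ) : ℂ :=
  ∑ P : Finset (Fin n), (w P : ℂ) * ((-1) ^ P.card * coeff (mexp u (cyc P)) p)

theorem Phi_add (w : Finset (Fin n) → ℤ) (p q : MvPolynomial (Free u) ℂ) :
    Phi u w (p + q) = Phi u w p + Phi u w q := by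
  simp only [Phi, coeff_add]
  rw [← Finset.sum_add_distrib]
  apply Finset.sum_congr rfl
  intro P _
  ring

theorem Phi_zero (w : Finset (Fin n) → ℤ) : Phi u w 0 = 0 := by
  simp [Phi]

theorem Phi_sum {ι : Type*} (w : Finset (Fin n) → ℤ) (t : Finset ι) (p : ι → MvPolynomial (Free u) ℂ) :
    Phi u w (∑ x ∈ t, p x) = ∑ x ∈ t, Phi u w (p x) := by
  classical
  induction t using Finset.induction_on with
  | empty => rw [Finset.sum_empty, Finset.sum_empty, Phi_zero]
  | insert a t ha ih => rw [Finset.sum_insert ha, Finset.sum_insert ha, Phi_add, ih]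

open Classical in
theorem Phi_core {w : Finset (Fin n) → ℤ} (hw : ∀ P, w P ≠ 0 → IsPath u c r P) (hs : rk u i j < s)
    (hf : Function.Injective f) (hg : Function.Injective g)
    (hfi : ∀ x, i ≤ u (f x)) (hgj : ∀ y, g y ≤ j) (hP₀ : IsPath u c r P₀)
    (h₀ : Shape u i j P₀ f g τ₀ a b) (he : e + mexp u (cyc (mid a b P₀)) = mexp u (cyc P₀)) (k : ℂ) :
    Phi u w (monomial e k * Dm u f g) = k * sg a b P₀ τ₀ *
      ((∑ P ∈ Finset.univ.filter
        (Blk u i j a b (P₀.filter fun d => d ≤ a) (P₀.filter fun d => b ≤ d)), w P : ℤ) : ℂ) := by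
  rw [Phi, Int.cast_sum, Finset.mul_sum, Finset.sum_filter]
  apply Finset.sum_congr rfl
  intro P _
  by_cases h1 : w P = 0
  · rw [h1]
    simp
  · rw [coeff_core hs hf hg hfi hgj hP₀ h₀ he k (hw P h1)]
    split_ifs
    · ring
    · ring

/-- the functional kills the multiples of the generators -/
theorem Phi_generator {w : Finset (Fin n) → ℤ} (hw : ∀ P, w P ≠ 0 → IsPath u c r P)
    (huv : BruhatLE u v)
    (hblk : ∀ i j : Fin n, rk v i j = rk u i j → u c < i → c ≤ j → j < r → i ≤ u r →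
      ∀ a b : Fin n, u a < i → a ≤ j → j < b → i ≤ u b → ∀ θ θ' : Finset (Fin n),
        haveI : DecidablePred (Blk u i j a b θ θ') := Classical.decPred _
        ∑ P ∈ Finset.univ.filter (Blk u i j a b θ θ'), w P = 0)
    (hs : s = rk v i j + 1) (hf : Function.Injective f) (hg : Function.Injective g)
    (hfi : ∀ x, i ≤ u (f x)) (hgj : ∀ y, g y ≤ j) (e : Free u →₀ ℕ) (k : ℂ) :
    Phi u w (monomial e k * Dm u f g) = 0 := by
  classical
  have hs' : rk u i j < s := by
    have := huv i j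
    omega
  by_cases hex : ∃ P₀ τ₀, w P₀ ≠ 0 ∧ Term u P₀ e f g τ₀
  · obtain ⟨P₀, τ₀, hP₀, hT⟩ := hex
    have hP := hw P₀ hP₀
    obtain ⟨a, b, h₀, he⟩ := hT.shape hP hs' hf hg hfi hgj
    rw [Phi_core hw hs' hf hg hfi hgj hP h₀ he k]
    have h1 : rk v i j = rk u i j := by
      have := h₀.sz
      omega
    have h2 : u c < i := lt_of_le_of_lt (hP.mono hP.1 h₀.ha (hP.2.2.1 a h₀.ha).1) h₀.ai
    have h3 : i ≤ u r := h₀.bi.trans (hP.mono h₀.hb hP.2.1 (hP.2.2.1 b h₀.hb).2)
    have h4 := hblk i j h1 h2 ((hP.2.2.1 a h₀.ha).1.trans h₀.aj)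
      (lt_of_lt_of_le h₀.bj (hP.2.2.1 b h₀.hb).2) h3 a b h₀.ai h₀.aj h₀.bj h₀.bi
      (P₀.filter fun d => d ≤ a) (P₀.filter fun d => b ≤ d)
    have h5 : ∑ P ∈ Finset.univ.filter
        (Blk u i j a b (P₀.filter fun d => d ≤ a) (P₀.filter fun d => b ≤ d)), w P = 0 := by
      convert h4
    rw [h5, Int.cast_zero, mul_zero]
  · rw [Phi]
    apply Finset.sum_eq_zero
    intro P _
    by_cases h1 : w P = 0
    · rw [h1]
      simp
    · rw [coeff_eq]
      apply mul_eq_zero_of_right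
      apply mul_eq_zero_of_right
      apply mul_eq_zero_of_right
      apply Finset.sum_eq_zero
      intro τ _
      rw [if_neg, mul_zero]
      exact fun h2 => hex ⟨P, τ, h1, h2⟩

/-- the functional kills the ideal -/
theorem Phi_ideal {w : Finset (Fin n) → ℤ} (hw : ∀ P, w P ≠ 0 → IsPath u c r P)
    (huv : BruhatLE u v)
    (hblk : ∀ i j : Fin n, rk v i j = rk u i j → u c < i → c ≤ j → j < r → i ≤ u r →
      ∀ a b : Fin n, u a < i → a ≤ j → j < b → i ≤ u b → ∀ θ θ' : Finset (Fin n),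
        haveI : DecidablePred (Blk u i j a b θ θ') := Classical.decPred _
        ∑ P ∈ Finset.univ.filter (Blk u i j a b θ θ'), w P = 0)
    {p : MvPolynomial (Free u) ℂ} (hp : p ∈ klIdeal u v) : ∀ q, Phi u w (q * p) = 0 := by
  rw [klIdeal] at hp
  refine Submodule.span_induction (p := fun p _ => ∀ q, Phi u w (q * p) = 0) ?_ ?_ ?_ ?_ hp
  · rintro x ⟨i, j, f, g, hf, hg, rfl⟩ q
    have h3 : ((Zmat u).submatrix f g).det = Dm u (fun a => u.symm (f a)) g := by
      rw [Dm]
      congr 2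
      funext a
      rw [Equiv.apply_symm_apply]
    rw [h3]
    have h4 : q * Dm u (fun a => u.symm (f a)) g =
        ∑ e ∈ q.support, monomial e (coeff e q) * Dm u (fun a => u.symm (f a)) g := by
      conv_lhs => rw [q.as_sum]
      rw [Finset.sum_mul]
    rw [h4, Phi_sum]
    apply Finset.sum_eq_zero
    intro e _
    apply Phi_generator hw huv hblk rfl
    · intro x y hxy
      exact f.injective (u.symm.injective hxy)
    · exact g.injective
    · intro x
      rw [Equiv.apply_symm_apply]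
      exact hf x
    · exact hg
  · intro q
    rw [mul_zero, Phi_zero]
  · intro x y _ _ hx hy q
    rw [mul_add, Phi_add, hx q, hy q, add_zero]
  · intro a x _ hx q
    rw [smul_eq_mul, ← mul_assoc]
    exact hx (q * a)

end Pool.Agent.H38.KL
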