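import Pool.Agent.H38.KL.Con3

/-!
# Necessity for one path (MP_a7460d_ag, note 3059)

`nonhom_one`: let `F` be a set of boxes of the open rectangle `(c,r)` with `rk v = rk u`, such that for two different numbers `K`, `K'` and for every
NW-minimal box `e` of `F` there are paths from `c` to `r` with `K` resp. `K'` dots in the box `e`, which have a dot SE of every box of the rectangle
with `rk v = rk u` outside `F`.  Then the ideal is not homogeneous.
-/

set_option autoImplicit false

open MvPolynomial Matrix Pool.Agent.H30.KL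

namespace Pool.Agent.H38.KL

variable {n : ℕ} {u v : Equiv.Perm (Fin n)} {c r : Fin n} {P P₀ : Finset (Fin n)}

/-- boxes of the open rectangle with defect zero -/
def Zr (u v : Equiv.Perm (Fin n)) (c r : Fin n) (f : Fin n × Fin n) : Prop :=
  rk v f.1 f.2 = rk u f.1 f.2 ∧ u c < f.1 ∧ c ≤ f.2 ∧ f.2 < r ∧ f.1 ≤ u r

theorem degree_path (hP : IsPath u c r P) : (mexp u (cyc P)).degree = P.card - 1 := by
  have hne : P.Nonempty := ⟨c, hP.1⟩
  have hc := isCyc_cyc hne
  have h1 : ∀ k, k < cyc P k → k ∈ P := by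
    intro k hk
    by_contra h2
    rw [hc.out k h2] at hk
    exact lt_irrefl _ hk
  rw [mexp, map_sum, ← Finset.card_erase_of_mem hP.2.1]
  have h2 : (P.erase r) = Finset.univ.filter fun k => k < cyc P k := by
    ext k
    rw [Finset.mem_erase, Finset.mem_filter]
    constructor
    · rintro ⟨h3, h4⟩
      exact ⟨Finset.mem_univ _, (hc.up k h4 r hP.2.1 (lt_of_le_of_ne (hP.2.2.1 k h4).2 h3)).1⟩
    · rintro ⟨-, h3⟩
      refine ⟨?_, h1 k h3⟩
      rintro rfl
      exact absurd h3 (not_lt.2 (hP.2.2.1 _ (hc.mem _ (h1 _ h3))).2)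
  rw [h2, Finset.card_filter]
  apply Finset.sum_congr rfl
  intro k _
  apply mon_degree
  intro hk
  exact hP.2.2.2 k (h1 k hk) _ (hc.mem k (h1 k hk)) hk

theorem mid_self (hP : IsPath u c r P) : mid c r P = P := by
  ext d
  rw [mem_mid]
  exact ⟨fun h => h.1, fun h => ⟨h, hP.2.2.1 d h⟩⟩

attribute [local instance] MvPolynomial.gradedAlgebra

theorem nonhom_one (huv : BruhatLE u v) {F : Finset (Fin n × Fin n)} (hF : F.Nonempty)
    (hFz : ∀ f ∈ F, Zr u v c r f) {K K' : ℕ} (hKK : K ≠ K')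
    (hK : ∀ e, MinNW F e → ∃ P, IsPath u c r P ∧ P.card = K ∧ InBox u c r e.1 e.2 P ∧
      ∀ f, Zr u v c r f → f ∉ F → Cov u f.1 f.2 P)
    (hK' : ∀ e, MinNW F e → ∃ P, IsPath u c r P ∧ P.card = K' ∧ InBox u c r e.1 e.2 P ∧
      ∀ f, Zr u v c r f → f ∉ F → Cov u f.1 f.2 P) : ¬ Hom u v := by
  classical
  obtain ⟨w, hw, hblk, e, heF, hsum⟩ := exists_functional (u := u) (c := c) (r := r)
    (Z := Finset.univ.filter (Zr u v c r)) (F := F)
    (fun f hf => (Finset.mem_filter.1 hf).2.2) hF hKK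
    (fun e he => by
      obtain ⟨P, h1, h2, h3, h4⟩ := hK e he
      exact ⟨P, h1, h2, h3, fun f hf => h4 f (Finset.mem_filter.1 hf).2⟩)
    (fun e he => by
      obtain ⟨P, h1, h2, h3, h4⟩ := hK' e he
      exact ⟨P, h1, h2, h3, fun f hf => h4 f (Finset.mem_filter.1 hf).2⟩)
  intro hHom
  obtain ⟨hz, hz1, hz2, hz3, hz4⟩ := hFz e heF
  have hcr : c < r := lt_of_le_of_lt hz2 hz3
  -- a path in the box
  obtain ⟨P₀, hP₀, hne⟩ := Finset.exists_ne_zero_of_sum_ne_zero (by rw [hsum]; exact one_ne_zero)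
  rw [Finset.mem_filter] at hP₀
  obtain ⟨-, hP₀b, hP₀K⟩ := hP₀
  have hP₀ := hw P₀ hne
  -- the minor
  have hcN : c ∉ NWs u e.1 e.2 := fun h => absurd (mem_NWs.1 h).2 (not_le.2 hz1)
  have hrN : r ∉ NWs u e.1 e.2 := fun h => absurd (mem_NWs.1 h).1 (not_le.2 hz3)
  have hG2 : (insert c (NWs u e.1 e.2)).card = rk v e.1 e.2 + 1 := by
    rw [Finset.card_insert_of_notMem hcN, card_NWs, hz]
  have hF2 : (insert r (NWs u e.1 e.2)).card = rk v e.1 e.2 + 1 := by
    rw [Finset.card_insert_of_notMem hrN, card_NWs, hz]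
  set g := (insert c (NWs u e.1 e.2)).orderEmbOfFin hG2 with hgdef
  set f := (insert r (NWs u e.1 e.2)).orderEmbOfFin hF2 with hfdef
  have hgG : Finset.univ.image g = insert c (NWs u e.1 e.2) := by
    ext x
    rw [Finset.mem_image]
    have h3 := Finset.range_orderEmbOfFin (insert c (NWs u e.1 e.2)) hG2
    have h4 : x ∈ Set.range g ↔ x ∈ insert c (NWs u e.1 e.2) := by
      rw [hgdef, h3]
      exact Finset.mem_coe
    rw [← h4]
    simp
  have hfF : Finset.univ.image f = insert r (NWs u e.1 e.2) := by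
    ext x
    rw [Finset.mem_image]
    have h3 := Finset.range_orderEmbOfFin (insert r (NWs u e.1 e.2)) hF2
    have h4 : x ∈ Set.range f ↔ x ∈ insert r (NWs u e.1 e.2) := by
      rw [hfdef, h3]
      exact Finset.mem_coe
    rw [← h4]
    simp
  have hfi : ∀ x, e.1 ≤ u (f x) := by
    intro x
    have h3 : f x ∈ insert r (NWs u e.1 e.2) := by
      rw [← hfF]
      exact Finset.mem_image_of_mem _ (Finset.mem_univ _)
    rcases Finset.mem_insert.1 h3 with h4 | h4
    · rw [h4]
      exact hz4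
    · exact (mem_NWs.1 h4).2
  have hgj : ∀ y, g y ≤ e.2 := by
    intro y
    have h3 : g y ∈ insert c (NWs u e.1 e.2) := by
      rw [← hgG]
      exact Finset.mem_image_of_mem _ (Finset.mem_univ _)
    rcases Finset.mem_insert.1 h3 with h4 | h4
    · rw [h4]
      exact hz2
    · exact (mem_NWs.1 h4).1
  have hmem : Dm u f g ∈ klIdeal u v :=
    det_mem_klIdeal u v (i := e.1) (j := e.2) (m := rk v e.1 e.2 + 1) rfl (fun x => u (f x)) g hfi hgj
  have hcomp : homogeneousComponent (K - 1) (Dm u f g) ∈ klIdeal u v := by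
    have h4 := hHom (K - 1) hmem
    have hdec : ((DirectSum.decompose (homogeneousSubmodule (Free u) ℂ) (Dm u f g) (K - 1) :
        homogeneousSubmodule (Free u) ℂ (K - 1)) : MvPolynomial (Free u) ℂ) =
        homogeneousComponent (K - 1) (Dm u f g) := by
      rw [← MvPolynomial.decomposition.decompose'_apply]
      rfl
    rwa [hdec] at h4
  -- the functional on the component
  have hzero := Phi_ideal hw huv (by
    intro i j h1 h2 h3 h4 h5 a b h6 h7 h8 h9 θ θ'
    have h10 := hblk (i, j) (Finset.mem_filter.2 ⟨Finset.mem_univ _, h1, h2, h3, h4, h5⟩) a b h6 h7 h8 h9 θ θ'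
    convert h10) hcomp 1
  rw [one_mul] at hzero
  -- the shape of the reference path
  have hd₀ : Dt u e.1 e.2 c r P₀ := by
    refine ⟨hP₀.1, hP₀.2.1, hz1, hz2, hz3, hz4, fun d hd h1 h2 => ?_⟩
    rcases hP₀b d hd with h3 | h3 | h3
    · exact absurd h3 (ne_of_gt h1)
    · exact absurd h3 (ne_of_lt h2)
    · exact h3
  obtain ⟨τ₀, hτ₀⟩ := hd₀.exists_tau (f := f) (g := g) g.injective hgG hfF
  have h₀ : Shape u e.1 e.2 P₀ f g τ₀ c r :=
    ⟨hd₀.ha, hd₀.hb, hd₀.ai, hd₀.aj, hd₀.bj, hd₀.bi, hd₀.int, hgG, hfF, by rw [hz], hτ₀⟩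
  have he₀ : (0 : Free u →₀ ℕ) + mexp u (cyc (mid c r P₀)) = mexp u (cyc P₀) := by
    rw [zero_add, mid_self hP₀]
  have hs : rk u e.1 e.2 < rk v e.1 e.2 + 1 := by
    rw [hz]
    exact Nat.lt_succ_self _
  have hkey : Phi u w (homogeneousComponent (K - 1) (Dm u f g)) = sg c r P₀ τ₀ := by
    have h1 : sg c r P₀ τ₀ = sg c r P₀ τ₀ * ((∑ P ∈ Finset.univ.filter
        (fun P => InBox u c r e.1 e.2 P ∧ P.card = K), w P : ℤ) : ℂ) := by
      rw [hsum, Int.cast_one, mul_one]
    rw [h1, Phi, Int.cast_sum, Finset.mul_sum, Finset.sum_filter]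
    apply Finset.sum_congr rfl
    intro P _
    by_cases h2 : w P = 0
    · rw [h2]
      simp
    · have hP := hw P h2
      have hcard : 1 ≤ P.card := Finset.card_pos.2 ⟨c, hP.1⟩
      have hcard₀ : 1 ≤ K := by
        rw [← hP₀K]
        exact Finset.card_pos.2 ⟨c, hP₀.1⟩
      have hB : Blk u e.1 e.2 c r (P₀.filter fun d => d ≤ c) (P₀.filter fun d => r ≤ d) P ↔
          InBox u c r e.1 e.2 P := by
        constructor
        · rintro ⟨-, -, -, -, h3⟩ d hd
          rcases (hP.2.2.1 d hd).1.eq_or_lt with h4 | h4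
          · exact Or.inl h4.symm
          · rcases (hP.2.2.1 d hd).2.eq_or_lt with h5 | h5
            · exact Or.inr (Or.inl h5)
            · exact Or.inr (Or.inr (h3 d hd h4 h5))
        · intro h3
          have h4 := (blk_iff (θ := P₀.filter fun d => d ≤ c) (θ' := P₀.filter fun d => r ≤ d) hP₀ hP₀b hz4 hz2
            hz1 hz3).1 ⟨hP₀.1, hP₀.2.1, rfl, rfl, hd₀.int⟩
          exact (blk_iff hP h3 hz4 hz2 hz1 hz3).2 h4
      have hcc := coeff_core hs f.injective g.injective hfi hgj hP₀ h₀ he₀ 1 hP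
      rw [← MvPolynomial.C_apply, map_one, one_mul, one_mul] at hcc
      rw [coeff_homogeneousComponent, degree_path hP]
      by_cases h3 : P.card = K
      · rw [if_pos (by rw [h3]), hcc]
        simp only [hB, h3, and_true]
        split_ifs
        · ring
        · ring
      · rw [if_neg (by omega), if_neg (fun h4 => h3 h4.2)]
        ring
  rw [hkey] at hzero
  exact sg_ne_zero _ _ _ _ hzero

end Pool.Agent.H38.KL
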