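import Mathlib

/-!
# Envelope functionals for chains of dots (MP_a7460d_ag, note 3059)

The dots of the permutation `u` are the positions `x`, plotted as `(x, u x)`.  A path from `c` to `r` is a set
of dots containing `c` and `r`, between `c` and `r`, on which `u` is increasing.  For a box `(i,j)` a dot `x` is
NW if `x ≤ j`, `i ≤ u x`, SW if `x ≤ j`, `u x < i`, NE if `j < x`, `i ≤ u x`, SE if `j < x`, `u x < i`.
-/

set_option autoImplicit false

namespace Pool.Agent.H38.KL

variable {n : ℕ}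

/-- `P` is the set of the dots of a chain from `c` to `r` -/
def IsPath (u : Equiv.Perm (Fin n)) (c r : Fin n) (P : Finset (Fin n)) : Prop :=
  c ∈ P ∧ r ∈ P ∧ (∀ x ∈ P, c ≤ x ∧ x ≤ r) ∧ ∀ x ∈ P, ∀ y ∈ P, x < y → u x < u y

/-- the interior of `P` lies in the box `(i,j)` -/
def InBox (u : Equiv.Perm (Fin n)) (c r i j : Fin n) (P : Finset (Fin n)) : Prop :=
  ∀ d ∈ P, d = c ∨ d = r ∨ (d ≤ j ∧ i ≤ u d)

/-- some dot of `P` is SE of the box `(i,j)` -/
def Cov (u : Equiv.Perm (Fin n)) (i j : Fin n) (P : Finset (Fin n)) : Prop :=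
  ∃ d ∈ P, j < d ∧ u d < i

/-- south-east frontier of a set of dots -/
def fr (u : Equiv.Perm (Fin n)) (A : Finset (Fin n)) : Finset (Fin n) :=
  A.filter fun d => ∀ d' ∈ A, d ≤ d' → u d' ≤ u d → d' = d

/-- envelope of a family of paths -/
def env (u : Equiv.Perm (Fin n)) (R : Finset (Finset (Fin n))) : Finset (Fin n) :=
  fr u (R.biUnion id)

/-- the paths with prescribed part before `a`, prescribed part after `b` and the part between `a` and `b` in
the box `(i,j)` -/
def Blk (u : Equiv.Perm (Fin n)) (i j a b : Fin n) (θ θ' P : Finset (Fin n)) : Prop :=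
  a ∈ P ∧ b ∈ P ∧ P.filter (fun d => d ≤ a) = θ ∧ P.filter (fun d => b ≤ d) = θ' ∧
    ∀ d ∈ P, a < d → d < b → d ≤ j ∧ i ≤ u d

open Classical in
/-- the envelope functional of a family of paths -/
noncomputable def V (u : Equiv.Perm (Fin n)) (S : Finset (Finset (Fin n))) (P : Finset (Fin n)) : ℤ :=
  ∑ R ∈ S.powerset, if R.Nonempty ∧ env u R = P then (-1) ^ (R.card + 1) else 0

variable {u : Equiv.Perm (Fin n)} {c r i j a b : Fin n} {P T θ θ' A : Finset (Fin n)}
  {S R : Finset (Finset (Fin n))}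

theorem IsPath.mono (h : IsPath u c r P) {x y : Fin n} (hx : x ∈ P) (hy : y ∈ P) (hxy : x ≤ y) :
    u x ≤ u y := by
  rcases hxy.lt_or_eq with h1 | h1
  · exact (h.2.2.2 x hx y hy h1).le
  · rw [h1]

theorem mem_env {d : Fin n} : d ∈ env u R ↔
    (∃ P ∈ R, d ∈ P) ∧ ∀ P ∈ R, ∀ d' ∈ P, d ≤ d' → u d' ≤ u d → d' = d := by
  simp only [env, fr, Finset.mem_filter, Finset.mem_biUnion, id]
  constructor
  · rintro ⟨h1, h2⟩
    exact ⟨h1, fun P hP d' hd' => h2 d' ⟨P, hP, hd'⟩⟩
  · rintro ⟨h1, h2⟩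
    exact ⟨h1, fun d' ⟨P, hP, hd'⟩ => h2 P hP d' hd'⟩

theorem env_isPath (hR : ∀ P ∈ R, IsPath u c r P) (hne : R.Nonempty) : IsPath u c r (env u R) := by
  obtain ⟨P0, hP0⟩ := hne
  refine ⟨?_, ?_, ?_, ?_⟩
  · rw [mem_env]
    refine ⟨⟨P0, hP0, (hR P0 hP0).1⟩, fun P hP d' hd' h1 h2 => ?_⟩
    by_contra h3
    exact absurd h2 (not_le.2 ((hR P hP).2.2.2 c (hR P hP).1 d' hd' (lt_of_le_of_ne h1 (Ne.symm h3))))
  · rw [mem_env]
    exact ⟨⟨P0, hP0, (hR P0 hP0).2.1⟩, fun P hP d' hd' h1 _ =>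
      le_antisymm ((hR P hP).2.2.1 d' hd').2 h1⟩
  · intro x hx
    obtain ⟨⟨P, hP, hxP⟩, -⟩ := mem_env.1 hx
    exact (hR P hP).2.2.1 x hxP
  · intro x hx y hy hxy
    by_contra h1
    obtain ⟨⟨P, hP, hyP⟩, -⟩ := mem_env.1 hy
    have h2 := (mem_env.1 hx).2 P hP y hyP hxy.le (not_lt.1 h1)
    rw [h2] at hxy
    exact lt_irrefl _ hxy

theorem env_single (h : IsPath u c r T) : env u {T} = T := by
  ext d
  rw [mem_env]
  constructor
  · rintro ⟨⟨P, hP, hd⟩, -⟩
    rw [Finset.mem_singleton] at hP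
    rwa [hP] at hd
  · intro hd
    refine ⟨⟨T, Finset.mem_singleton_self T, hd⟩, fun P hP d' hd' h1 h2 => ?_⟩
    rw [Finset.mem_singleton] at hP
    rw [hP] at hd'
    by_contra h3
    exact absurd h2 (not_le.2 (h.2.2.2 d hd d' hd' (lt_of_le_of_ne h1 (Ne.symm h3))))

/-- below every dot of the family there is a dot of the envelope -/
theorem exists_env (hP : P ∈ R) {d : Fin n} (hd : d ∈ P) : ∃ d' ∈ env u R, d ≤ d' ∧ u d' ≤ u d := by
  have hne : ((R.biUnion id).filter fun d' => d ≤ d' ∧ u d' ≤ u d).Nonempty :=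
    ⟨d, by
      rw [Finset.mem_filter, Finset.mem_biUnion]
      exact ⟨⟨P, hP, hd⟩, le_rfl, le_rfl⟩⟩
  obtain ⟨m, hm, hmax⟩ := Finset.exists_max_image _ id hne
  rw [Finset.mem_filter, Finset.mem_biUnion] at hm
  refine ⟨m, ?_, hm.2⟩
  rw [mem_env]
  refine ⟨hm.1, fun Q hQ d' hd' h1 h2 => ?_⟩
  have h3 := hmax d' (by
    rw [Finset.mem_filter, Finset.mem_biUnion]
    exact ⟨⟨Q, hQ, hd'⟩, hm.2.1.trans h1, h2.trans hm.2.2⟩)
  exact le_antisymm h3 h1

theorem env_low (hR : ∀ P ∈ R, IsPath u c r P) (hne : R.Nonempty) (hTb : InBox u c r i j T)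
    {d : Fin n} (hd : u d < i) : d ∈ env u R ↔ d ∈ env u (insert T R) := by
  obtain ⟨P0, hP0⟩ := hne
  rw [mem_env, mem_env]
  constructor
  · rintro ⟨⟨P, hP, hdP⟩, h2⟩
    refine ⟨⟨P, Finset.mem_insert_of_mem hP, hdP⟩, fun Q hQ d' hd' h3 h4 => ?_⟩
    rcases Finset.mem_insert.1 hQ with h5 | h5
    · rw [h5] at hd'
      rcases hTb d' hd' with h6 | h6 | h6
      · rw [h6] at h3 ⊢
        exact le_antisymm ((hR P hP).2.2.1 d hdP).1 h3
      · rw [h6] at h4 ⊢
        by_contra h7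
        have h8 := (hR P hP).2.2.2 d hdP r (hR P hP).2.1
          (lt_of_le_of_ne ((hR P hP).2.2.1 d hdP).2 (Ne.symm h7))
        exact absurd h4 (not_le.2 h8)
      · exact absurd (h6.2.trans h4) (not_le.2 hd)
    · exact h2 Q h5 d' hd' h3 h4
  · rintro ⟨⟨P, hP, hdP⟩, h2⟩
    refine ⟨?_, fun Q hQ => h2 Q (Finset.mem_insert_of_mem hQ)⟩
    rcases Finset.mem_insert.1 hP with h5 | h5
    · rw [h5] at hdP
      rcases hTb d hdP with h6 | h6 | h6
      · exact ⟨P0, hP0, h6 ▸ (hR P0 hP0).1⟩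
      · exact ⟨P0, hP0, h6 ▸ (hR P0 hP0).2.1⟩
      · exact absurd h6.2 (not_le.2 hd)
    · exact ⟨P, h5, hdP⟩

theorem env_right (hR : ∀ P ∈ R, IsPath u c r P) (hne : R.Nonempty) (hTb : InBox u c r i j T)
    {d : Fin n} (hd : j < d) : d ∈ env u R ↔ d ∈ env u (insert T R) := by
  obtain ⟨P0, hP0⟩ := hne
  rw [mem_env, mem_env]
  constructor
  · rintro ⟨⟨P, hP, hdP⟩, h2⟩
    refine ⟨⟨P, Finset.mem_insert_of_mem hP, hdP⟩, fun Q hQ d' hd' h3 h4 => ?_⟩
    rcases Finset.mem_insert.1 hQ with h5 | h5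
    · rw [h5] at hd'
      rcases hTb d' hd' with h6 | h6 | h6
      · rw [h6] at h3 ⊢
        exact le_antisymm ((hR P hP).2.2.1 d hdP).1 h3
      · rw [h6] at h4 ⊢
        by_contra h7
        have h8 := (hR P hP).2.2.2 d hdP r (hR P hP).2.1
          (lt_of_le_of_ne ((hR P hP).2.2.1 d hdP).2 (Ne.symm h7))
        exact absurd h4 (not_le.2 h8)
      · exact absurd (h3.trans h6.1) (not_le.2 hd)
    · exact h2 Q h5 d' hd' h3 h4
  · rintro ⟨⟨P, hP, hdP⟩, h2⟩
    refine ⟨?_, fun Q hQ => h2 Q (Finset.mem_insert_of_mem hQ)⟩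
    rcases Finset.mem_insert.1 hP with h5 | h5
    · rw [h5] at hdP
      rcases hTb d hdP with h6 | h6 | h6
      · exact ⟨P0, hP0, h6 ▸ (hR P0 hP0).1⟩
      · exact ⟨P0, hP0, h6 ▸ (hR P0 hP0).2.1⟩
      · exact absurd h6.1 (not_le.2 hd)
    · exact ⟨P, h5, hdP⟩

/-- a path inside the box can be added or removed -/
theorem blk_toggle (hR : ∀ P ∈ R, IsPath u c r P) (hT : IsPath u c r T) (hne : R.Nonempty)
    (hTb : InBox u c r i j T) (ha : u a < i) (hb : j < b) :
    Blk u i j a b θ θ' (env u R) ↔ Blk u i j a b θ θ' (env u (insert T R)) := by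
  have hR' : ∀ P ∈ insert T R, IsPath u c r P := by
    intro P hP
    rcases Finset.mem_insert.1 hP with h | h
    · rw [h]; exact hT
    · exact hR P h
  have hE := env_isPath hR hne
  have hE' := env_isPath hR' (Finset.insert_nonempty T R)
  have hfa : a ∈ env u R → (env u R).filter (fun d => d ≤ a) =
      (env u (insert T R)).filter (fun d => d ≤ a) := by
    intro h1
    have h2 := (env_low hR hne hTb ha).1 h1
    ext d
    rw [Finset.mem_filter, Finset.mem_filter]
    constructor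
    · rintro ⟨h3, h4⟩
      exact ⟨(env_low hR hne hTb (lt_of_le_of_lt (hE.mono h3 h1 h4) ha)).1 h3, h4⟩
    · rintro ⟨h3, h4⟩
      exact ⟨(env_low hR hne hTb (lt_of_le_of_lt (hE'.mono h3 h2 h4) ha)).2 h3, h4⟩
  have hfb : (env u R).filter (fun d => b ≤ d) =
      (env u (insert T R)).filter (fun d => b ≤ d) := by
    ext d
    rw [Finset.mem_filter, Finset.mem_filter]
    constructor
    · rintro ⟨h3, h4⟩
      exact ⟨(env_right hR hne hTb (lt_of_lt_of_le hb h4)).1 h3, h4⟩
    · rintro ⟨h3, h4⟩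
      exact ⟨(env_right hR hne hTb (lt_of_lt_of_le hb h4)).2 h3, h4⟩
  constructor
  · rintro ⟨h1, h2, h3, h4, h5⟩
    refine ⟨(env_low hR hne hTb ha).1 h1, (env_right hR hne hTb hb).1 h2, ?_, ?_, ?_⟩
    · rw [← hfa h1, h3]
    · rw [← hfb, h4]
    · intro d hd h6 h7
      obtain ⟨⟨P, hP, hdP⟩, h8⟩ := mem_env.1 hd
      rcases Finset.mem_insert.1 hP with h9 | h9
      · rw [h9] at hdP
        rcases hTb d hdP with h10 | h10 | h10
        · exfalso
          rw [h10] at h6
          exact absurd h6 (not_lt.2 (hE.2.2.1 a h1).1)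
        · exfalso
          rw [h10] at h7
          exact absurd h7 (not_lt.2 (hE.2.2.1 b h2).2)
        · exact h10
      · exact h5 d (mem_env.2 ⟨⟨P, h9, hdP⟩, fun Q hQ => h8 Q (Finset.mem_insert_of_mem hQ)⟩) h6 h7
  · rintro ⟨h1, h2, h3, h4, h5⟩
    have h1' := (env_low hR hne hTb ha).2 h1
    have h2' := (env_right hR hne hTb hb).2 h2
    refine ⟨h1', h2', ?_, ?_, ?_⟩
    · rw [hfa h1', h3]
    · rw [hfb, h4]
    · intro d hd h6 h7
      by_cases h8 : d ∈ env u (insert T R)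
      · exact h5 d h8 h6 h7
      · obtain ⟨⟨P, hP, hdP⟩, h9⟩ := mem_env.1 hd
        have h10 : ∃ t ∈ T, d ≤ t ∧ u t ≤ u d ∧ t ≠ d := by
          by_contra hcon
          push Not at hcon
          apply h8
          rw [mem_env]
          refine ⟨⟨P, Finset.mem_insert_of_mem hP, hdP⟩, fun Q hQ d' hd' h11 h12 => ?_⟩
          rcases Finset.mem_insert.1 hQ with h13 | h13
          · rw [h13] at hd'
            exact hcon d' hd' h11 h12
          · exact h9 Q h13 d' hd' h11 h12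
        obtain ⟨t, ht, h11, h12, h13⟩ := h10
        rcases hTb t ht with h14 | h14 | h14
        · exfalso
          rw [h14] at h11
          exact absurd (lt_of_lt_of_le h6 h11) (not_lt.2 (hE.2.2.1 a h1').1)
        · exfalso
          rw [h14] at h12
          exact absurd h12 (not_le.2 (hE.2.2.2 d hd r hE.2.1 (lt_of_lt_of_le h7 (hE.2.2.1 b h2').2)))
        · exact ⟨h11.trans h14.1, h14.2.trans h12⟩

open Classical in
theorem sum_V (S : Finset (Finset (Fin n))) (p : Finset (Fin n) → Prop) :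
    ∑ P ∈ Finset.univ.filter p, V u S P =
      ∑ R ∈ S.powerset, if R.Nonempty ∧ p (env u R) then (-1) ^ (R.card + 1) else 0 := by
  simp only [V]
  rw [Finset.sum_comm]
  apply Finset.sum_congr rfl
  intro R _
  by_cases h1 : R.Nonempty
  · simp only [h1, true_and]
    rw [Finset.sum_ite_eq]
    simp only [Finset.mem_filter, Finset.mem_univ, true_and]
  · simp [h1]

open Classical in
/-- block sums, a path of the family lies in the box -/
theorem sum_blk (hS : ∀ P ∈ S, IsPath u c r P) (hT : T ∈ S) (hTb : InBox u c r i j T)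
    (ha : u a < i) (hb : j < b) :
    ∑ P ∈ Finset.univ.filter (Blk u i j a b θ θ'), V u S P =
      if Blk u i j a b θ θ' T then 1 else 0 := by
  rw [sum_V, ← Finset.insert_erase hT, Finset.sum_powerset_insert (Finset.notMem_erase T S)]
  have h1 : ∀ R ∈ (S.erase T).powerset, R ≠ ∅ →
      (if R.Nonempty ∧ Blk u i j a b θ θ' (env u R) then (-1 : ℤ) ^ (R.card + 1) else 0) +
        (if (insert T R).Nonempty ∧ Blk u i j a b θ θ' (env u (insert T R)) then
          (-1 : ℤ) ^ ((insert T R).card + 1) else 0) = 0 := by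
    intro R hR hne
    rw [Finset.mem_powerset] at hR
    have hne' : R.Nonempty := Finset.nonempty_iff_ne_empty.2 hne
    have h2 := blk_toggle (θ := θ) (θ' := θ')
      (fun P hP => hS P (Finset.mem_of_mem_erase (hR hP))) (hS T hT) hne' hTb ha hb
    have h3 : T ∉ R := fun h4 => Finset.notMem_erase T S (hR h4)
    rw [Finset.card_insert_of_notMem h3]
    simp only [hne', Finset.insert_nonempty, true_and, ← h2]
    split_ifs
    · ring
    · ring
  rw [← Finset.sum_add_distrib, Finset.sum_eq_single (∅ : Finset (Finset (Fin n)))]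
  · have h4 : insert T (∅ : Finset (Finset (Fin n))) = {T} := rfl
    rw [h4, env_single (hS T hT)]
    simp
  · exact h1
  · intro h
    exact absurd (Finset.empty_mem_powerset _) h

open Classical in
/-- block sums, all the paths of the family have a dot SE of the box -/
theorem sum_blk_cov (hS : ∀ P ∈ S, IsPath u c r P) (hc : ∀ P ∈ S, Cov u i j P)
    (ha : a ≤ j) (hb : i ≤ u b) :
    ∑ P ∈ Finset.univ.filter (Blk u i j a b θ θ'), V u S P = 0 := by
  rw [sum_V]
  apply Finset.sum_eq_zero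
  intro R hR
  rw [Finset.mem_powerset] at hR
  rw [if_neg]
  rintro ⟨hne, h1, h2, -, -, h5⟩
  have hE := env_isPath (fun P hP => hS P (hR hP)) hne
  obtain ⟨P0, hP0⟩ := hne
  obtain ⟨d, hd, h6, h7⟩ := hc P0 (hR hP0)
  obtain ⟨d', hd', h8, h9⟩ := exists_env (u := u) hP0 hd
  have h10 : a < d' := lt_of_le_of_lt ha (lt_of_lt_of_le h6 h8)
  have h11 : d' < b := by
    by_contra h12
    exact absurd (hE.mono h2 hd' (not_lt.1 h12))
      (not_le.2 (lt_of_le_of_lt h9 (lt_of_lt_of_le h7 hb)))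
  have h12 := h5 d' hd' h10 h11
  exact absurd h12.1 (not_le.2 (lt_of_lt_of_le h6 h8))

open Classical in
/-- the paths in a box containing only one path of the family -/
theorem sum_box (hS : ∀ P ∈ S, IsPath u c r P) (hT : T ∈ S) (hTb : InBox u c r i j T)
    (huniq : ∀ P ∈ S, InBox u c r i j P → P = T) (k : ℕ) :
    ∑ P ∈ Finset.univ.filter (fun P => InBox u c r i j P ∧ P.card = k), V u S P =
      if T.card = k then 1 else 0 := by
  have h0 := sum_V (u := u) S (fun P => InBox u c r i j P ∧ P.card = k)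
  refine Eq.trans ?_ (h0.trans ?_)
  · apply Finset.sum_congr _ (fun _ _ => rfl)
    ext P
    simp only [Finset.mem_filter]
  rw [Finset.sum_eq_single ({T} : Finset (Finset (Fin n)))]
  · rw [env_single (hS T hT)]
    simp [hTb]
  · intro R hR hne
    rw [Finset.mem_powerset] at hR
    rw [if_neg]
    rintro ⟨hne', h1, -⟩
    have h2 : ∃ P ∈ R, P ≠ T := by
      by_contra hcon
      push Not at hcon
      apply hne
      ext P
      rw [Finset.mem_singleton]
      constructor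
      · exact hcon P
      · rintro rfl
        obtain ⟨Q, hQ⟩ := hne'
        rwa [← hcon Q hQ]
    obtain ⟨P, hP, hPT⟩ := h2
    have h3 : ¬ InBox u c r i j P := fun h4 => hPT (huniq P (hR hP) h4)
    rw [InBox] at h3
    push Not at h3
    obtain ⟨d, hd, hdc, hdr, hdb⟩ := h3
    have hPp := hS P (hR hP)
    obtain ⟨d', hd', h5, h6⟩ := exists_env (u := u) hP hd
    have h7 : c < d := lt_of_le_of_ne (hPp.2.2.1 d hd).1 (Ne.symm hdc)
    have h8 : u d < u r := hPp.2.2.2 d hd r hPp.2.1 (lt_of_le_of_ne (hPp.2.2.1 d hd).2 hdr)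
    rcases h1 d' hd' with h9 | h9 | h9
    · rw [h9] at h5
      exact absurd h7 (not_lt.2 h5)
    · rw [h9] at h6
      exact absurd h8 (not_lt.2 h6)
    · have h10 := hdb (h5.trans h9.1)
      exact absurd (h9.2.trans h6) (not_le.2 h10)
  · intro h
    exact absurd (Finset.mem_powerset.2 (Finset.singleton_subset_iff.2 hT)) h

end Pool.Agent.H38.KL
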