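import Pool.Agent.H38.KL.Lead

/-!
# The curve from the chart `u * swap a b` to the chart `u` (MP_a7460d_ag)
-/

set_option autoImplicit false

open Matrix Pool.Agent.H30.KL

namespace Pool.Agent.H38.KL

variable {n : ℕ} {u : Equiv.Perm (Fin n)} {a b : Fin n}

/-- the matrix of the chart `u` with the entries `xi` (rows, values of the pivots of the columns) -/
def Zp (u : Equiv.Perm (Fin n)) (xi : Fin n → Fin n → ℂ) : Matrix (Fin n) (Fin n) ℂ := fun r c =>
  if u c < r ∧ c < u.symm r then xi r (u c) else if u c = r then 1 else 0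

theorem Zp_apply (u : Equiv.Perm (Fin n)) (xi : Fin n → Fin n → ℂ) (r c : Fin n) :
    Zp u xi r c = if u c < r ∧ c < u.symm r then xi r (u c) else if u c = r then 1 else 0 := rfl

/-- a unitriangular system is solvable -/
theorem solve_tri (p : Fin n → Fin n) (hp : Function.Injective p) (A : Fin n → Fin n → ℂ) (w : Fin n → ℂ)
    (s : Finset (Fin n)) : (∀ b ∈ s, A b b = 1) → (∀ b ∈ s, ∀ d ∈ s, p b < p d → A b d = 0) →
      ∃ μ : Fin n → ℂ, ∀ d ∈ s, ∑ b ∈ s, μ b * A b d = w d := by
  refine Finset.induction_on_min_value p s ?_ ?_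
  · intro _ _
    exact ⟨0, fun d hd => absurd hd (Finset.notMem_empty d)⟩
  · intro m s hm hmin ih h1 h2
    obtain ⟨μ, hμ⟩ := ih (fun b hb => h1 b (Finset.mem_insert_of_mem hb))
      (fun b hb d hd => h2 b (Finset.mem_insert_of_mem hb) d (Finset.mem_insert_of_mem hd))
    refine ⟨Function.update μ m (w m - ∑ b ∈ s, μ b * A b m), fun d hd => ?_⟩
    rw [Finset.sum_insert hm, Function.update_self]
    have h3 : ∑ b ∈ s, Function.update μ m (w m - ∑ b ∈ s, μ b * A b m) b * A b d =
        ∑ b ∈ s, μ b * A b d := by
      apply Finset.sum_congr rfl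
      intro b hb
      have hbm : b ≠ m := by
        rintro rfl
        exact hm hb
      rw [Function.update_of_ne hbm]
    rw [h3]
    rcases Finset.mem_insert.1 hd with h4 | h4
    · rw [h4, h1 m (Finset.mem_insert_self _ _)]
      ring
    · have h5 : p m < p d := by
        apply lt_of_le_of_ne (hmin d h4)
        intro h6
        rw [hp h6] at hm
        exact hm h4
      rw [h2 m (Finset.mem_insert_self _ _) d hd h5, hμ d h4]
      ring

namespace LastAsc

variable (h : LastAsc u a b)

include h

theorem Zp_left (xi : Fin n → Fin n → ℂ) (r : Fin n) :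
    Zp (u * Equiv.swap a b) xi r a = if r = u b then 1 else 0 := by
  have h1 := h.nz_a' (r := r)
  rw [nz, Equiv.Perm.mul_apply, Equiv.swap_apply_left] at h1
  rw [Zp_apply, Equiv.Perm.mul_apply, Equiv.swap_apply_left]
  by_cases h2 : r = u b
  · rw [if_pos h2, if_neg, if_pos h2.symm]
    rintro ⟨h3, -⟩
    exact ne_of_lt h3 h2.symm
  · rw [if_neg h2, if_neg, if_neg]
    · exact fun h3 => h2 h3.symm
    · exact fun h3 => h2 (h1.1 (Or.inr h3))

theorem Zp_right (xi : Fin n → Fin n → ℂ) {r c : Fin n} (hc : b < c) :
    Zp (u * Equiv.swap a b) xi r c = if r = u c then 1 else 0 := by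
  have hca : c ≠ a := ne_of_gt (h.lt.trans hc)
  have hcb : c ≠ b := ne_of_gt hc
  have h1 := h.nz_other (r := r) hca hcb
  rw [Zp_apply]
  have h3 : nz (u * Equiv.swap a b) r c → r = u c := fun h4 => h.nz_right hc.le (h1.1 h4)
  have h4 : (u * Equiv.swap a b) c = u c := by
    rw [Equiv.Perm.mul_apply, Equiv.swap_apply_of_ne_of_ne hca hcb]
  by_cases h2 : r = u c
  · rw [if_pos h2, if_neg, if_pos (by rw [h4, h2])]
    rintro ⟨h5, -⟩
    rw [h4] at h5
    exact ne_of_lt h5 h2.symm
  · rw [if_neg h2, if_neg, if_neg]
    · rw [h4]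
      exact fun h3 => h2 h3.symm
    · exact fun h5 => h2 (h3 (Or.inr h5))

theorem Zp_self (xi : Fin n → Fin n → ℂ) {r : Fin n} (hr : r ≠ u b) :
    Zp (u * Equiv.swap a b) xi r b =
      if u a < r ∧ a < u.symm r then xi r (u a) else if u a = r then 1 else 0 := by
  rw [Zp_apply, Equiv.Perm.mul_apply, Equiv.swap_apply_right, LastAsc.symm_apply]
  have h1 : u.symm r ≠ b := by
    intro h2
    apply hr
    rw [← h2, Equiv.apply_symm_apply]
  have h2 : (u a < r ∧ b < Equiv.swap a b (u.symm r)) ↔ (u a < r ∧ a < u.symm r) := by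
    constructor
    · rintro ⟨h3, h4⟩
      refine ⟨h3, ?_⟩
      by_cases h5 : u.symm r = a
      · exfalso
        have h6 : r = u a := by rw [← h5, Equiv.apply_symm_apply]
        rw [h6] at h3
        exact lt_irrefl _ h3
      · rw [Equiv.swap_apply_of_ne_of_ne h5 h1] at h4
        exact h.lt.trans h4
    · rintro ⟨h3, h4⟩
      refine ⟨h3, ?_⟩
      rw [Equiv.swap_apply_of_ne_of_ne (ne_of_gt h4) h1]
      exact lt_of_le_of_ne (h.no_between h4) (Ne.symm h1)
  simp only [h2]

theorem Zp_self_zero (xi : Fin n → Fin n → ℂ) : Zp (u * Equiv.swap a b) xi (u b) b = 0 := by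
  rw [Zp_apply, Equiv.Perm.mul_apply, Equiv.swap_apply_right, LastAsc.symm_apply, Equiv.symm_apply_apply,
    Equiv.swap_apply_right, if_neg, if_neg]
  · exact fun h1 => h.ne (u.injective h1)
  · rintro ⟨-, h1⟩
    exact absurd h1 (not_lt.2 h.lt.le)

theorem Zp_other (xi : Fin n → Fin n → ℂ) {r c : Fin n} (hc : c < a) :
    Zp (u * Equiv.swap a b) xi r c =
      if u c < r ∧ c < u.symm r then xi r (u c) else if u c = r then 1 else 0 := by
  have hca : c ≠ a := ne_of_lt hc
  have hcb : c ≠ b := ne_of_lt (hc.trans h.lt)
  rw [Zp_apply, Equiv.Perm.mul_apply, Equiv.swap_apply_of_ne_of_ne hca hcb, LastAsc.symm_apply]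
  have key : c < Equiv.swap a b (u.symm r) ↔ c < u.symm r := by
    by_cases h1 : u.symm r = a
    · rw [h1, Equiv.swap_apply_left]
      exact ⟨fun _ => hc, fun _ => hc.trans h.lt⟩
    · by_cases h2 : u.symm r = b
      · rw [h2, Equiv.swap_apply_right]
        exact ⟨fun _ => hc.trans h.lt, fun _ => hc⟩
      · rw [Equiv.swap_apply_of_ne_of_ne h1 h2]
  simp only [key]

/-- the functional at the row `i` -/
theorem exists_q (xi : Fin n → Fin n → ℂ) (i : Fin n) : ∃ q : Fin n → ℂ, q (u b) = 1 ∧
    (∀ y, y ≠ u b → ¬ (u.symm y < a ∧ i < y ∧ y < u b) → q y = 0) ∧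
    ∀ d, d < a → i < u d → u d < u b → ∑ y, q y * Zp (u * Equiv.swap a b) xi y d = 0 := by
  classical
  set M := Zp (u * Equiv.swap a b) xi with hM
  set s := Finset.univ.filter fun d => d < a ∧ i < u d ∧ u d < u b with hs
  obtain ⟨μ, hμ⟩ := solve_tri (n := n) u u.injective (fun x d => M (u x) d) (fun d => M (u b) d) s
    (by
      intro d hd
      rw [hs, Finset.mem_filter] at hd
      show M (u d) d = 1
      rw [hM, h.Zp_other xi hd.2.1, if_neg (fun h1 => lt_irrefl _ h1.1), if_pos rfl])
    (by
      intro x hx d hd hxd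
      rw [hs, Finset.mem_filter] at hd
      show M (u x) d = 0
      rw [hM, h.Zp_other xi hd.2.1, if_neg (fun h1 => absurd h1.1 (not_lt.2 hxd.le)),
        if_neg (fun h1 => ne_of_gt hxd h1)])
  have hbs : ∀ x ∈ s, u x ≠ u b := by
    intro x hx
    rw [hs, Finset.mem_filter] at hx
    exact ne_of_lt hx.2.2.2
  refine ⟨fun y => if y = u b then 1 else if u.symm y ∈ s then - μ (u.symm y) else 0, ?_, ?_, ?_⟩
  · simp
  · intro y hy hn
    have h1 : u.symm y ∉ s := by
      rw [hs, Finset.mem_filter, Equiv.apply_symm_apply]
      exact fun h2 => hn h2.2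
    simp only [hy, h1, if_false]
  · intro d hd h1 h2
    have hds : d ∈ s := by
      rw [hs, Finset.mem_filter]
      exact ⟨Finset.mem_univ _, hd, h1, h2⟩
    have h3 := hμ d hds
    have h4 : ∑ y, (if y = u b then 1 else if u.symm y ∈ s then - μ (u.symm y) else 0) * M y d =
        ∑ x, (if x = b then 1 else if x ∈ s then - μ x else 0) * M (u x) d := by
      rw [← Equiv.sum_comp u]
      apply Finset.sum_congr rfl
      intro x _
      simp only [Equiv.symm_apply_apply, u.injective.eq_iff]
    rw [h4, ← Finset.add_sum_erase _ _ (Finset.mem_univ b)]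
    simp only [if_true, one_mul]
    have h5 : ∑ x ∈ Finset.univ.erase b, (if x = b then 1 else if x ∈ s then - μ x else 0) * M (u x) d =
        ∑ x ∈ s, - (μ x * M (u x) d) := by
      symm
      apply Finset.sum_subset_zero_on_sdiff
      · intro x hx
        rw [Finset.mem_erase]
        exact ⟨fun h6 => hbs x hx (by rw [h6]), Finset.mem_univ _⟩
      · intro x hx
        rw [Finset.mem_sdiff, Finset.mem_erase] at hx
        rw [if_neg hx.1.1, if_neg hx.2, zero_mul]
      · intro x hx
        rw [if_neg (fun h6 => hbs x hx (by rw [h6])), if_pos hx]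
        ring
    rw [h5, Finset.sum_neg_distrib, h3]
    ring

end LastAsc

theorem g1geo_aux (h : LastAsc u a b) (xi : Fin n → Fin n → ℂ) : ∃ eta : Fin n → Fin n → ℂ, ∀ t : ℂ, t ≠ 0 →
    ∃ G T : Matrix (Fin n) (Fin n) ℂ, (∀ x y, y < x → G x y = 0) ∧ (∀ x y, y < x → T x y = 0) ∧
      Zp u (fun r x => if r = u b ∧ x = u a then t⁻¹ else xi r x + t * eta r x) =
        G * Zp (u * Equiv.swap a b) xi * T := by
  classical
  choose q hq1 hq2 hq3 using h.exists_q xi
  set M := Zp (u * Equiv.swap a b) xi with hM
  have hMa : ∀ r, M r a = if r = u b then 1 else 0 := fun r => h.Zp_left xi r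
  have hMb0 : M (u b) b = 0 := h.Zp_self_zero xi
  have hMb : ∀ x, x ≠ u b → M x b = if u a < x ∧ a < u.symm x then xi x (u a) else if u a = x then 1 else 0 :=
    fun x hx => h.Zp_self xi hx
  have hMo : ∀ r c, c < a → M r c = if u c < r ∧ c < u.symm r then xi r (u c) else if u c = r then 1 else 0 :=
    fun r c hc => h.Zp_other xi hc
  -- the support of the column `b`
  have hcsupp : ∀ x, M x b ≠ 0 → x < u b ∧ a ≤ u.symm x := by
    intro x hx
    have h1 : x ≠ u b := by
      rintro rfl
      exact hx (h.Zp_self_zero xi)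
    rw [hM, h.Zp_self xi h1] at hx
    by_cases h2 : u a < x ∧ a < u.symm x
    · refine ⟨?_, h2.2.le⟩
      have h3 : nz u x a := Or.inr h2
      exact lt_of_le_of_ne (h.val_le h3) h1
    · rw [if_neg h2] at hx
      by_cases h3 : u a = x
      · rw [← h3, Equiv.symm_apply_apply]
        exact ⟨h.2.1, le_rfl⟩
      · rw [if_neg h3] at hx
        exact absurd rfl hx
  have hsum_a : ∀ x, ∑ y, q x y * M y a = 1 := by
    intro x
    rw [Finset.sum_eq_single (u b)]
    · rw [hMa, if_pos rfl, hq1, mul_one]
    · intro y _ hy
      rw [hMa, if_neg hy, mul_zero]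
    · intro h1
      exact absurd (Finset.mem_univ _) h1
  have hsum_b : ∀ x, ∑ y, q x y * M y b = 0 := by
    intro x
    apply Finset.sum_eq_zero
    intro y _
    by_cases h1 : M y b = 0
    · rw [h1, mul_zero]
    · obtain ⟨h2, h3⟩ := hcsupp y h1
      rw [hq2 x y (ne_of_lt h2) (fun h4 => absurd h4.1 (not_lt.2 h3)), zero_mul]
  refine ⟨fun r x => if u.symm x < a then M r b * ∑ y, q r y * M y (u.symm x) else 0, fun t ht => ?_⟩
  set G : Matrix (Fin n) (Fin n) ℂ := fun x y => (if x = y then 1 else 0) + t * (M x b * q x y) with hG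
  set T : Matrix (Fin n) (Fin n) ℂ := fun x y => if y = a then (if x = a then t⁻¹ else 0) else
    if y = b then (if x = a then 1 else if x = b then -t else 0) else if x = y then 1 else 0 with hT
  have hGM : ∀ x d, (G * M) x d = M x d + t * (M x b * ∑ y, q x y * M y d) := by
    intro x d
    rw [Matrix.mul_apply]
    simp only [hG]
    have h1 : ∀ y, ((if x = y then 1 else 0) + t * (M x b * q x y)) * M y d =
        (if x = y then M y d else 0) + t * (M x b * (q x y * M y d)) := by
      intro y
      split_ifs
      · ring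
      · ring
    simp only [h1]
    rw [Finset.sum_add_distrib, Finset.sum_ite_eq, if_pos (Finset.mem_univ _), ← Finset.mul_sum,
      ← Finset.mul_sum]
  have hab : b ≠ a := h.ne.symm
  have hcol : ∀ x d, (G * M * T) x d = if d = a then t⁻¹ * (G * M) x a else
      if d = b then (G * M) x a - t * (G * M) x b else (G * M) x d := by
    intro x d
    rw [Matrix.mul_apply]
    by_cases hda : d = a
    · simp only [hT, hda, if_true, mul_ite, mul_zero]
      rw [Finset.sum_ite_eq', if_pos (Finset.mem_univ _), mul_comm]
    · by_cases hdb : d = b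
      · simp only [hT, hdb, hab, if_true, if_false]
        rw [← Finset.add_sum_erase _ _ (Finset.mem_univ a),
          ← Finset.add_sum_erase _ _ (Finset.mem_erase.2 ⟨hab, Finset.mem_univ b⟩)]
        rw [Finset.sum_eq_zero]
        · simp only [hab, if_true, if_false]
          ring
        · intro y hy
          rw [Finset.mem_erase, Finset.mem_erase] at hy
          rw [if_neg hy.2.1, if_neg hy.1, mul_zero]
      · simp only [hT, hda, hdb, if_false, mul_ite, mul_one, mul_zero]
        rw [Finset.sum_ite_eq', if_pos (Finset.mem_univ _)]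
  refine ⟨G, T, ?_, ?_, ?_⟩
  · intro x y hyx
    simp only [hG]
    rw [if_neg (ne_of_gt hyx), zero_add]
    by_cases h1 : M x b = 0
    · rw [h1]
      ring
    · obtain ⟨h2, h3⟩ := hcsupp x h1
      rw [hq2 x y (ne_of_lt (hyx.trans h2)) (fun h4 => absurd h4.2.1 (not_lt.2 hyx.le))]
      ring
  · intro x y hyx
    simp only [hT]
    by_cases h1 : y = a
    · rw [if_pos h1, if_neg]
      rw [← h1]
      exact ne_of_gt hyx
    · rw [if_neg h1]
      by_cases h2 : y = b
      · rw [if_pos h2, if_neg, if_neg]
        · rw [← h2]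
          exact ne_of_gt hyx
        · rw [h2] at hyx
          exact ne_of_gt (h.lt.trans hyx)
      · rw [if_neg h2, if_neg (ne_of_gt hyx)]
  · ext x d
    rw [hcol, Zp_apply]
    by_cases hda : d = a
    · rw [if_pos hda, hda, hGM, hsum_a, hMa]
      by_cases hx : x = u b
      · rw [hx, if_pos ⟨h.2.1, by rw [Equiv.symm_apply_apply]; exact h.lt⟩, if_pos ⟨rfl, rfl⟩, if_pos rfl, hMb0]
        ring
      · rw [if_neg hx, hMb x hx]
        simp only [hx, false_and, if_false, Equiv.symm_apply_apply, lt_irrefl, mul_zero, add_zero, mul_one,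
          zero_add]
        rw [← mul_assoc, inv_mul_cancel₀ ht, one_mul]
    · rw [if_neg hda]
      by_cases hdb : d = b
      · rw [if_pos hdb, hdb, hGM, hGM, hsum_a, hsum_b, hMa]
        have h1 : ¬ (u b < x ∧ b < u.symm x) := by
          rintro ⟨h2, h3⟩
          have h4 := h.nz_b.1 (Or.inr ⟨h2, h3⟩ : nz u x b)
          exact ne_of_gt h2 h4
        rw [if_neg h1]
        by_cases hx : x = u b
        · rw [if_pos hx, if_pos hx.symm]
          ring
        · rw [if_neg hx, if_neg (fun h2 => hx h2.symm)]
          ring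
      · rw [if_neg hdb, hGM]
        rcases lt_or_gt_of_ne hda with hd | hd
        · -- columns before `a`
          have hud : u d ≠ u a := fun h1 => hda (u.injective h1)
          rw [hMo x d hd]
          by_cases hcell : u d < x ∧ d < u.symm x
          · rw [if_pos hcell, if_pos hcell, if_neg (fun h1 => hud h1.2)]
            simp only [Equiv.symm_apply_apply, hd, if_true]
          · rw [if_neg hcell, if_neg hcell]
            have hzero : M x b * ∑ y, q x y * M y d = 0 := by
              by_cases h1 : M x b = 0
              · rw [h1, zero_mul]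
              · obtain ⟨h2, h3⟩ := hcsupp x h1
                have h4 : d < u.symm x := lt_of_lt_of_le hd h3
                have h5 : x ≤ u d := by
                  by_contra h6
                  exact hcell ⟨not_le.1 h6, h4⟩
                have h6 : x < u d := by
                  apply lt_of_le_of_ne h5
                  rintro rfl
                  rw [Equiv.symm_apply_apply] at h4
                  exact lt_irrefl _ h4
                apply mul_eq_zero_of_right
                rcases lt_trichotomy (u d) (u b) with h7 | h7 | h7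
                · exact hq3 x d hd h6 h7
                · exact absurd (u.injective h7) hdb
                · apply Finset.sum_eq_zero
                  intro y _
                  by_cases h8 : M y d = 0
                  · rw [h8, mul_zero]
                  · have h9 : u d ≤ y := by
                      rw [hMo y d hd] at h8
                      by_contra h10
                      rw [if_neg (fun h11 => h10 h11.1.le), if_neg (fun h11 => h10 (le_of_eq h11))] at h8
                      exact h8 rfl
                    have h10 : u b < y := lt_of_lt_of_le h7 h9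
                    rw [hq2 x y (ne_of_gt h10) (fun h11 => absurd h11.2.2 (not_lt.2 h10.le)), zero_mul]
            rw [hzero, mul_zero, add_zero]
        · -- columns after `b`
          have hbd : b < d := lt_of_le_of_ne (h.no_between hd) (Ne.symm hdb)
          have h1 : ¬ (u d < x ∧ d < u.symm x) := by
            rintro ⟨h2, h3⟩
            have h4 := h.nz_right hbd.le (Or.inr ⟨h2, h3⟩ : nz u x d)
            exact ne_of_gt h2 h4
          rw [if_neg h1]
          have h2 : ∀ y, M y d = if y = u d then 1 else 0 := fun y => h.Zp_right xi hbd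
          have h3 : ∑ y, q x y * M y d = 0 := by
            rw [Finset.sum_eq_single (u d)]
            · rw [hq2 x (u d), zero_mul]
              · exact fun h4 => hdb (u.injective h4)
              · rw [Equiv.symm_apply_apply]
                exact fun h4 => absurd h4.1 (not_lt.2 hd.le)
            · intro y _ hy
              rw [h2, if_neg hy, mul_zero]
            · intro h4
              exact absurd (Finset.mem_univ _) h4
          rw [h3, h2]
          by_cases hx : x = u d
          · rw [if_pos hx, if_pos hx.symm]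
            ring
          · rw [if_neg hx, if_neg (fun h4 => hx h4.symm)]
            ring

end Pool.Agent.H38.KL
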