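import Pool.Agent.H30.KL.Defs

/-!
# Leading terms of minors and the change of the chart (MP_a7460d_ag)

Terms of the minor of the chart `u` on the rows `I` and the columns `J` are maps `μ` from columns to rows; they are compared at the rightmost column where they
differ, the larger row wins.  `Bad u v S`: for some box `(i,j)` the leading term of a minor of size `> rk v i j` only uses pivots and variables with labels in
`S`; the variable in row `r` and column `c` has the label `(u c, r)`.  `Std u v S` is the recursive criterion.  Main result: `std_of_not_bad`.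
-/

set_option autoImplicit false

open Pool.Agent.H30.KL

namespace Pool.Agent.H38.KL

variable {n : ℕ}

/-- the entry in row `r`, column `c` of the chart `u` is not zero -/
def nz (u : Equiv.Perm (Fin n)) (r c : Fin n) : Prop := u c = r ∨ (u c < r ∧ c < u.symm r)

/-- `μ` is a term of the minor on the rows `I` and the columns `J` -/
def Trm (u : Equiv.Perm (Fin n)) (I J : Finset (Fin n)) (μ : Fin n → Fin n) : Prop :=
  Set.BijOn μ ↑J ↑I ∧ ∀ c ∈ J, nz u (μ c) c

/-- `μ` is smaller than `μ'` -/
def Lt (J : Finset (Fin n)) (μ μ' : Fin n → Fin n) : Prop :=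
  ∃ c ∈ J, μ c < μ' c ∧ ∀ c' ∈ J, c < c' → μ c' = μ' c'

/-- leading term -/
def Leader (u : Equiv.Perm (Fin n)) (I J : Finset (Fin n)) (μ : Fin n → Fin n) : Prop :=
  Trm u I J μ ∧ ∀ μ', Trm u I J μ' → ¬ Lt J μ μ'

/-- the leading term of some minor of the conditions of `v` lies in `S` -/
def Bad (u v : Equiv.Perm (Fin n)) (S : Finset (Fin n × Fin n)) : Prop :=
  ∃ (i j : Fin n) (I J : Finset (Fin n)) (μ : Fin n → Fin n), (∀ r ∈ I, i ≤ r) ∧ (∀ c ∈ J, c ≤ j) ∧
    rk v i j < J.card ∧ Leader u I J μ ∧ ∀ c ∈ J, μ c = u c ∨ (u c, μ c) ∈ S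

/-- `a`, `b = a + 1` is the last ascent of `u` -/
def LastAsc (u : Equiv.Perm (Fin n)) (a b : Fin n) : Prop :=
  (b : ℕ) = a + 1 ∧ u a < u b ∧ ∀ c d, b ≤ c → c < d → u d < u c

/-- Demazure product with a simple transposition -/
def dem (v : Equiv.Perm (Fin n)) (a b : Fin n) : Equiv.Perm (Fin n) :=
  if v a < v b then v * Equiv.swap a b else v

/-- the recursive criterion -/
inductive Std : Equiv.Perm (Fin n) → Equiv.Perm (Fin n) → Finset (Fin n × Fin n) → Prop
  | base (u : Equiv.Perm (Fin n)) (S : Finset (Fin n × Fin n)) : (∀ a b, a < b → u b < u a) → Std u u S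
  | mem (u v : Equiv.Perm (Fin n)) (S : Finset (Fin n × Fin n)) (a b : Fin n) : LastAsc u a b →
      (u a, u b) ∈ S → Std (u * Equiv.swap a b) v (S.erase (u a, u b)) → Std u v S
  | nmem (u v : Equiv.Perm (Fin n)) (S : Finset (Fin n × Fin n)) (a b : Fin n) : LastAsc u a b →
      (u a, u b) ∉ S → Std (u * Equiv.swap a b) (dem v a b) S → Std u v S

section

variable {u v : Equiv.Perm (Fin n)} {a b : Fin n} {I J : Finset (Fin n)} {μ μ' : Fin n → Fin n}
  {S : Finset (Fin n × Fin n)}

theorem Trm.inj (h : Trm u I J μ) {x y : Fin n} (hx : x ∈ J) (hy : y ∈ J) (hxy : μ x = μ y) : x = y :=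
  h.1.injOn (Finset.mem_coe.2 hx) (Finset.mem_coe.2 hy) hxy

theorem Trm.mem (h : Trm u I J μ) {x : Fin n} (hx : x ∈ J) : μ x ∈ I :=
  Finset.mem_coe.1 (h.1.mapsTo (Finset.mem_coe.2 hx))

theorem Trm.congr (h : Trm u I J μ) (he : ∀ c ∈ J, μ c = μ' c) : Trm u I J μ' :=
  ⟨h.1.congr fun c hc => he c (Finset.mem_coe.1 hc), fun c hc => by rw [← he c hc]; exact h.2 c hc⟩

theorem Leader.congr (h : Leader u I J μ) (he : ∀ c ∈ J, μ c = μ' c) : Leader u I J μ' := by
  refine ⟨h.1.congr he, fun ν hν hlt => h.2 ν hν ?_⟩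
  obtain ⟨c, hc, h1, h2⟩ := hlt
  exact ⟨c, hc, by rw [he c hc]; exact h1, fun c' hc' hcc => by rw [he c' hc']; exact h2 c' hc' hcc⟩

/-- a part of a leading term is a leading term -/
theorem Leader.erase (h : Leader u I J μ) {c₀ : Fin n} (hc₀ : c₀ ∈ J) :
    Leader u (I.erase (μ c₀)) (J.erase c₀) μ := by
  refine ⟨⟨?_, fun c hc => h.1.2 c (Finset.mem_of_mem_erase hc)⟩, fun ν hν hlt => ?_⟩
  · rw [Finset.coe_erase, Finset.coe_erase]
    exact h.1.1.sdiff_singleton (Finset.mem_coe.2 hc₀)
  · obtain ⟨c, hc, h1, h2⟩ := hlt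
    have hne : c ≠ c₀ := Finset.ne_of_mem_erase hc
    have hcJ := Finset.mem_of_mem_erase hc
    apply h.2 (Function.update ν c₀ (μ c₀))
    · constructor
      · have h3 : Set.BijOn (Function.update ν c₀ (μ c₀)) ↑(J.erase c₀) ↑(I.erase (μ c₀)) := by
          apply hν.1.congr
          intro x hx
          have hx' : x ≠ c₀ := Finset.ne_of_mem_erase (Finset.mem_coe.1 hx)
          rw [Function.update_of_ne hx']
        have h4 := h3.insert (a := c₀) (by
          rw [Function.update_self, Finset.mem_coe]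
          exact Finset.notMem_erase _ _)
        rw [Function.update_self, ← Finset.coe_insert, ← Finset.coe_insert, Finset.insert_erase hc₀,
          Finset.insert_erase (h.1.mem hc₀)] at h4
        exact h4
      · intro x hx
        by_cases hx' : x = c₀
        · rw [hx', Function.update_self]
          exact h.1.2 c₀ hc₀
        · rw [Function.update_of_ne hx']
          exact hν.2 x (Finset.mem_erase.2 ⟨hx', hx⟩)
    · refine ⟨c, hcJ, ?_, fun c' hc' hcc => ?_⟩
      · rw [Function.update_of_ne hne]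
        exact h1
      · by_cases hx' : c' = c₀
        · rw [hx', Function.update_self]
        · rw [Function.update_of_ne hx']
          exact h2 c' (Finset.mem_erase.2 ⟨hx', hc'⟩) hcc

/-- image of a set of columns -/
def sw (a b : Fin n) (J : Finset (Fin n)) : Finset (Fin n) := J.image (Equiv.swap a b)

theorem mem_sw {x : Fin n} : x ∈ sw a b J ↔ Equiv.swap a b x ∈ J := by
  rw [sw, Finset.mem_image]
  constructor
  · rintro ⟨y, hy, rfl⟩
    rwa [Equiv.swap_apply_self]
  · intro h
    exact ⟨_, h, Equiv.swap_apply_self _ _ _⟩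

theorem sw_sw : sw a b (sw a b J) = J := by
  ext x
  rw [mem_sw, mem_sw, Equiv.swap_apply_self]

theorem card_sw : (sw a b J).card = J.card := Finset.card_image_of_injective _ (Equiv.injective _)

theorem bij_sw : Set.BijOn (Equiv.swap a b) ↑(sw a b J) ↑J := by
  refine ⟨fun x hx => ?_, (Equiv.injective _).injOn, fun x hx => ?_⟩
  · exact Finset.mem_coe.2 (mem_sw.1 (Finset.mem_coe.1 hx))
  · refine ⟨Equiv.swap a b x, Finset.mem_coe.2 (mem_sw.2 ?_), Equiv.swap_apply_self _ _ _⟩
    rw [Equiv.swap_apply_self]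
    exact Finset.mem_coe.1 hx

namespace LastAsc

variable (h : LastAsc u a b)

include h

theorem lt : a < b := by
  have h1 := h.1
  rw [Fin.lt_def]
  omega

theorem ne : a ≠ b := ne_of_lt h.lt

theorem no_between {c : Fin n} (hc : a < c) : b ≤ c := by
  have h1 := h.1
  rw [Fin.lt_def] at hc
  rw [Fin.le_def]
  omega

theorem lt_of_lt_b {c : Fin n} (hc : c < b) (hca : c ≠ a) : c < a := by
  rcases lt_trichotomy c a with h1 | h1 | h1
  · exact h1
  · exact absurd h1 hca
  · exact absurd hc (not_lt.2 (h.no_between h1))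

theorem nz_right {r c : Fin n} (hc : b ≤ c) (h1 : nz u r c) : r = u c := by
  rcases h1 with h1 | ⟨h1, h2⟩
  · exact h1.symm
  · have h3 := h.2.2 c (u.symm r) hc h2
    rw [Equiv.apply_symm_apply] at h3
    exact absurd h1 (not_lt.2 h3.le)

theorem val_le {r : Fin n} (h1 : nz u r a) : r ≤ u b := by
  rcases h1 with h1 | ⟨h1, h2⟩
  · rw [← h1]
    exact h.2.1.le
  · have h3 := h.no_between h2
    rcases h3.eq_or_lt with h4 | h4
    · rw [h4, Equiv.apply_symm_apply]
    · have h5 := h.2.2 b _ le_rfl h4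
      rw [Equiv.apply_symm_apply] at h5
      exact h5.le

omit h in
theorem symm_apply (r : Fin n) : (u * Equiv.swap a b).symm r = Equiv.swap a b (u.symm r) := by
  rw [Equiv.symm_apply_eq, Equiv.Perm.mul_apply, Equiv.swap_apply_self, Equiv.apply_symm_apply]

/-- columns different from `a`, `b` -/
theorem nz_other {r c : Fin n} (hca : c ≠ a) (hcb : c ≠ b) : nz (u * Equiv.swap a b) r c ↔ nz u r c := by
  rw [nz, nz, LastAsc.symm_apply, Equiv.Perm.mul_apply, Equiv.swap_apply_of_ne_of_ne hca hcb]
  have key : c < Equiv.swap a b (u.symm r) ↔ c < u.symm r := by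
    by_cases h1 : u.symm r = a
    · rw [h1, Equiv.swap_apply_left]
      exact ⟨fun h2 => h.lt_of_lt_b h2 hca, fun h2 => h2.trans h.lt⟩
    · by_cases h2 : u.symm r = b
      · rw [h2, Equiv.swap_apply_right]
        exact ⟨fun h2 => h2.trans h.lt, fun h2 => h.lt_of_lt_b h2 hca⟩
      · rw [Equiv.swap_apply_of_ne_of_ne h1 h2]
  rw [key]

theorem nz_a' {r : Fin n} : nz (u * Equiv.swap a b) r a ↔ r = u b := by
  rw [nz, LastAsc.symm_apply, Equiv.Perm.mul_apply, Equiv.swap_apply_left]
  constructor
  · rintro (h1 | ⟨h1, h2⟩)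
    · exact h1.symm
    · exfalso
      by_cases h3 : u.symm r = a
      · have h4 : r = u a := by rw [← h3, Equiv.apply_symm_apply]
        rw [h4] at h1
        exact absurd h.2.1 (not_lt.2 h1.le)
      · by_cases h4 : u.symm r = b
        · have h5 : r = u b := by rw [← h4, Equiv.apply_symm_apply]
          rw [h5] at h1
          exact lt_irrefl _ h1
        · rw [Equiv.swap_apply_of_ne_of_ne h3 h4] at h2
          have h5 := lt_of_le_of_ne (h.no_between h2) (Ne.symm h4)
          have h6 := h.2.2 b _ le_rfl h5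
          rw [Equiv.apply_symm_apply] at h6
          exact absurd h1 (not_lt.2 h6.le)
  · intro h1
    exact Or.inl h1.symm

theorem nz_b {r : Fin n} : nz u r b ↔ r = u b :=
  ⟨fun h1 => h.nz_right le_rfl h1, fun h1 => Or.inl h1.symm⟩

theorem nz_a {r : Fin n} : nz u r a ↔ nz (u * Equiv.swap a b) r b ∨ r = u b := by
  rw [nz, nz, LastAsc.symm_apply, Equiv.Perm.mul_apply, Equiv.swap_apply_right]
  constructor
  · rintro (h1 | ⟨h1, h2⟩)
    · exact Or.inl (Or.inl h1)
    · by_cases h4 : u.symm r = b
      · right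
        rw [← h4, Equiv.apply_symm_apply]
      · left
        right
        have h3 : u.symm r ≠ a := ne_of_gt h2
        rw [Equiv.swap_apply_of_ne_of_ne h3 h4]
        exact ⟨h1, lt_of_le_of_ne (h.no_between h2) (Ne.symm h4)⟩
  · rintro ((h1 | ⟨h1, h2⟩) | h1)
    · exact Or.inl h1
    · right
      refine ⟨h1, ?_⟩
      by_cases h3 : u.symm r = a
      · exfalso
        have h4 : r = u a := by rw [← h3, Equiv.apply_symm_apply]
        rw [h4] at h1
        exact lt_irrefl _ h1
      · by_cases h4 : u.symm r = b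
        · rw [h4]
          exact h.lt
        · rw [Equiv.swap_apply_of_ne_of_ne h3 h4] at h2
          exact h.lt.trans h2
    · right
      rw [h1, Equiv.symm_apply_apply]
      exact ⟨h.2.1, h.lt⟩

theorem not_nz_b' : ¬ nz (u * Equiv.swap a b) (u b) b := by
  rw [nz, LastAsc.symm_apply, Equiv.Perm.mul_apply, Equiv.swap_apply_right, Equiv.symm_apply_apply,
    Equiv.swap_apply_right]
  rintro (h1 | ⟨-, h1⟩)
  · exact h.ne (u.injective h1)
  · exact absurd h1 (not_lt.2 h.lt.le)

/-- terms in the chart `u` give terms in the chart `u * swap a b` -/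
theorem trm_back (hH : b ∈ J → a ∈ J ∨ u b ∉ I) (hμ : Trm u I (sw a b J) μ) :
    Trm (u * Equiv.swap a b) I J (μ ∘ Equiv.swap a b) := by
  constructor
  · apply hμ.1.comp
    have h1 := bij_sw (a := a) (b := b) (J := sw a b J)
    rwa [sw_sw] at h1
  · intro c hc
    rw [Function.comp]
    by_cases hca : c = a
    · rw [hca, Equiv.swap_apply_left, h.nz_a']
      have h1 : b ∈ sw a b J := by
        rw [mem_sw, Equiv.swap_apply_right, ← hca]
        exact hc
      exact h.nz_b.1 (hμ.2 b h1)
    · by_cases hcb : c = b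
      · rw [hcb, Equiv.swap_apply_right]
        have h1 : a ∈ sw a b J := by
          rw [mem_sw, Equiv.swap_apply_left, ← hcb]
          exact hc
        rcases h.nz_a.1 (hμ.2 a h1) with h2 | h2
        · exact h2
        · exfalso
          rcases hH (hcb ▸ hc) with h3 | h3
          · have h4 : b ∈ sw a b J := by
              rw [mem_sw, Equiv.swap_apply_right]
              exact h3
            have h5 := h.nz_b.1 (hμ.2 b h4)
            exact h.ne (hμ.inj h1 h4 (h2.trans h5.symm))
          · apply h3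
            rw [← h2]
            exact hμ.mem h1
      · rw [Equiv.swap_apply_of_ne_of_ne hca hcb, h.nz_other hca hcb]
        apply hμ.2
        rw [mem_sw, Equiv.swap_apply_of_ne_of_ne hca hcb]
        exact hc

/-- terms in the chart `u * swap a b` give terms in the chart `u` -/
theorem trm_forth (hμ : Trm (u * Equiv.swap a b) I J μ) :
    Trm u I (sw a b J) (μ ∘ Equiv.swap a b) := by
  constructor
  · exact hμ.1.comp bij_sw
  · intro c hc
    rw [mem_sw] at hc
    rw [Function.comp]
    have h1 := hμ.2 _ hc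
    by_cases hca : c = a
    · rw [hca, Equiv.swap_apply_left] at h1 ⊢
      exact h.nz_a.2 (Or.inl h1)
    · by_cases hcb : c = b
      · rw [hcb, Equiv.swap_apply_right] at h1 ⊢
        rw [h.nz_a'] at h1
        rw [h1]
        exact Or.inl rfl
      · rw [Equiv.swap_apply_of_ne_of_ne hca hcb] at h1 ⊢
        exact (h.nz_other hca hcb).1 h1

theorem leader_sw (hH : b ∈ J → a ∈ J ∨ u b ∉ I) (hμ : Leader (u * Equiv.swap a b) I J μ) :
    Leader u I (sw a b J) (μ ∘ Equiv.swap a b) := by
  refine ⟨h.trm_forth hμ.1, fun ν hν hlt => hμ.2 _ (h.trm_back hH hν) ?_⟩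
  obtain ⟨c, hc, h1, h2⟩ := hlt
  have hcb : c ≠ b := by
    rintro rfl
    have h3 := h.nz_b.1 (hν.2 c hc)
    have h4 := h.nz_b.1 ((h.trm_forth hμ.1).2 c hc)
    rw [h3, h4] at h1
    exact lt_irrefl _ h1
  rw [mem_sw] at hc
  by_cases hca : c = a
  · rw [hca, Equiv.swap_apply_left] at hc
    rw [hca, Function.comp, Equiv.swap_apply_left] at h1
    refine ⟨b, hc, ?_, fun c' hc' hbc => ?_⟩
    · rw [Function.comp, Equiv.swap_apply_right]
      exact h1
    · have hc'a : c' ≠ a := ne_of_gt (h.lt.trans hbc)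
      have hc'b : c' ≠ b := ne_of_gt hbc
      have h3 := h2 c' (by rw [mem_sw, Equiv.swap_apply_of_ne_of_ne hc'a hc'b]; exact hc')
        (by rw [hca]; exact h.lt.trans hbc)
      rw [Function.comp, Equiv.swap_apply_of_ne_of_ne hc'a hc'b] at h3
      rw [Function.comp, Equiv.swap_apply_of_ne_of_ne hc'a hc'b]
      exact h3
  · rw [Equiv.swap_apply_of_ne_of_ne hca hcb] at hc
    rw [Function.comp, Equiv.swap_apply_of_ne_of_ne hca hcb] at h1
    refine ⟨c, hc, ?_, fun c' hc' hcc => ?_⟩
    · rw [Function.comp, Equiv.swap_apply_of_ne_of_ne hca hcb]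
      exact h1
    · have h3 : c < Equiv.swap a b c' := by
        by_cases hc'a : c' = a
        · rw [hc'a, Equiv.swap_apply_left]
          rw [hc'a] at hcc
          exact hcc.trans h.lt
        · by_cases hc'b : c' = b
          · rw [hc'b, Equiv.swap_apply_right]
            rw [hc'b] at hcc
            exact h.lt_of_lt_b hcc hca
          · rw [Equiv.swap_apply_of_ne_of_ne hc'a hc'b]
            exact hcc
      have h4 := h2 _ (by rw [mem_sw, Equiv.swap_apply_self]; exact hc') h3
      rw [Function.comp, Equiv.swap_apply_self] at h4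
      exact h4

/-- the variable of the ascent is used -/
theorem leader_mem (ha : a ∈ J) (hb : b ∉ J) (hμ : Leader (u * Equiv.swap a b) I J μ) : Leader u I J μ := by
  have hμa : μ a = u b := h.nz_a'.1 (hμ.1.2 a ha)
  have hT : ∀ ν, Trm u I J ν → ν a = u b → Trm (u * Equiv.swap a b) I J ν := by
    intro ν hν hνa
    refine ⟨hν.1, fun c hc => ?_⟩
    by_cases hca : c = a
    · rw [hca, h.nz_a']
      exact hνa
    · have hcb : c ≠ b := by
        rintro rfl
        exact hb hc
      rw [h.nz_other hca hcb]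
      exact hν.2 c hc
  have hμT : Trm u I J μ := by
    refine ⟨hμ.1.1, fun c hc => ?_⟩
    by_cases hca : c = a
    · rw [hca, hμa, h.nz_a]
      exact Or.inr rfl
    · have hcb : c ≠ b := by
        rintro rfl
        exact hb hc
      rw [← h.nz_other hca hcb]
      exact hμ.1.2 c hc
  refine ⟨hμT, fun ν hν hlt => ?_⟩
  obtain ⟨c, hc, h1, h2⟩ := hlt
  rcases lt_trichotomy c a with hca | hca | hca
  · have h3 := h2 a ha hca
    rw [hμa] at h3
    exact hμ.2 ν (hT ν hν h3.symm) ⟨c, hc, h1, h2⟩
  · rw [hca, hμa] at h1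
    exact absurd (h.val_le (hν.2 a ha)) (not_le.2 h1)
  · have h3 := h.no_between hca
    rw [h.nz_right h3 (hν.2 c hc), h.nz_right h3 (hμT.2 c hc)] at h1
    exact lt_irrefl _ h1

end LastAsc

end

end Pool.Agent.H38.KL
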