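import Pool.Agent.H38.KL.Lead

/-!
# The recursive criterion (MP_a7460d_ag)
-/

set_option autoImplicit false

open Pool.Agent.H30.KL

namespace Pool.Agent.H38.KL

variable {n : ℕ} {u v : Equiv.Perm (Fin n)} {a b i j : Fin n} {I J : Finset (Fin n)} {μ μ' : Fin n → Fin n}
  {S : Finset (Fin n × Fin n)}

theorem dem_other {c : Fin n} (ha : c ≠ a) (hb : c ≠ b) : dem v a b c = v c := by
  rw [dem]
  split_ifs
  · rw [Equiv.Perm.mul_apply, Equiv.swap_apply_of_ne_of_ne ha hb]
  · rfl

theorem dem_left : dem v a b a = max (v a) (v b) := by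
  rw [dem]
  split_ifs with h
  · rw [Equiv.Perm.mul_apply, Equiv.swap_apply_left, max_eq_right h.le]
  · rw [max_eq_left (not_lt.1 h)]

theorem rk_dem_of_le (hab : a < b) (hj : b ≤ j) : rk (dem v a b) i j = rk v i j := by
  rw [dem]
  split_ifs
  · rw [rk, rk]
    apply Finset.card_bijective (Equiv.swap a b) (Equiv.bijective _)
    intro k
    rw [Finset.mem_filter, Finset.mem_filter, Equiv.Perm.mul_apply]
    have h1 : k ≤ j ↔ Equiv.swap a b k ≤ j := by
      by_cases h2 : k = a
      · rw [h2, Equiv.swap_apply_left]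
        exact ⟨fun _ => hj, fun _ => hab.le.trans hj⟩
      · by_cases h3 : k = b
        · rw [h3, Equiv.swap_apply_right]
          exact ⟨fun _ => hab.le.trans hj, fun _ => hj⟩
        · rw [Equiv.swap_apply_of_ne_of_ne h2 h3]
    rw [h1]
    simp
  · rfl

theorem rk_le_dem (hab : a < b) : rk v i j ≤ rk (dem v a b) i j := by
  by_cases hj : b ≤ j
  · rw [rk_dem_of_le hab hj]
  · rw [rk, rk]
    apply Finset.card_le_card
    intro k hk
    rw [Finset.mem_filter] at hk ⊢
    refine ⟨hk.1, hk.2.1, hk.2.2.trans ?_⟩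
    have hkb : k ≠ b := by
      rintro rfl
      exact hj hk.2.1
    by_cases hka : k = a
    · rw [hka, dem_left]
      exact le_max_left _ _
    · rw [dem_other hka hkb]

theorem rk_dem_small (hb : (b : ℕ) = a + 1) (hi : max (v a) (v b) < i) :
    rk v i b ≤ rk (dem v a b) i a := by
  rw [rk, rk]
  apply Finset.card_le_card
  intro k hk
  rw [Finset.mem_filter] at hk ⊢
  have h1 : k ≠ a := by
    rintro rfl
    exact absurd hk.2.2 (not_le.2 (lt_of_le_of_lt (le_max_left _ _) hi))
  have h2 : k ≠ b := by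
    rintro rfl
    exact absurd hk.2.2 (not_le.2 (lt_of_le_of_lt (le_max_right _ _) hi))
  refine ⟨hk.1, ?_, ?_⟩
  · have h3 := lt_of_le_of_ne hk.2.1 h2
    rw [Fin.lt_def] at h3
    rw [Fin.le_def]
    omega
  · rw [dem_other h1 h2]
    exact hk.2.2

theorem rk_dem_large (hab : a < b) (hi : i ≤ max (v a) (v b)) {j' : Fin n} (hj' : (j' : ℕ) + 1 = a) :
    rk v i j' + 1 ≤ rk (dem v a b) i a := by
  have h1 : a ∉ Finset.univ.filter fun k => k ≤ j' ∧ i ≤ v k := by
    rw [Finset.mem_filter]
    rintro ⟨-, h2, -⟩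
    rw [Fin.le_def] at h2
    omega
  rw [rk, rk, ← Finset.card_insert_of_notMem h1]
  apply Finset.card_le_card
  intro k hk
  rw [Finset.mem_filter]
  rcases Finset.mem_insert.1 hk with h2 | h2
  · rw [h2, dem_left]
    exact ⟨Finset.mem_univ _, le_rfl, hi⟩
  · rw [Finset.mem_filter] at h2
    have h3 : k < a := by
      have := h2.2.1
      rw [Fin.le_def] at this
      rw [Fin.lt_def]
      omega
    refine ⟨Finset.mem_univ _, h3.le, ?_⟩
    rw [dem_other (ne_of_lt h3) (ne_of_lt (h3.trans hab))]
    exact h2.2.2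

theorem labels_sw (hS : ∀ c ∈ J, μ c = (u * Equiv.swap a b) c ∨ ((u * Equiv.swap a b) c, μ c) ∈ S) :
    ∀ c ∈ sw a b J, (μ ∘ Equiv.swap a b) c = u c ∨ (u c, (μ ∘ Equiv.swap a b) c) ∈ S := by
  intro c hc
  have h1 := hS _ (mem_sw.1 hc)
  rw [Equiv.Perm.mul_apply, Equiv.swap_apply_self] at h1
  exact h1

namespace LastAsc

variable (h : LastAsc u a b)

include h

/-- add the column `a` with its pivot -/
theorem leader_insert (ha : a ∉ J) (hb : u b ∉ I) (hμ : Leader (u * Equiv.swap a b) I J μ) :
    Leader (u * Equiv.swap a b) (insert (u b) I) (insert a J) (Function.update μ a (u b)) := by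
  have hne : ∀ c ∈ J, c ≠ a := by
    rintro c hc rfl
    exact ha hc
  refine ⟨⟨?_, ?_⟩, fun ν hν hlt => ?_⟩
  · have h3 : Set.BijOn (Function.update μ a (u b)) ↑J ↑I := by
      apply hμ.1.1.congr
      intro x hx
      rw [Function.update_of_ne (hne x (Finset.mem_coe.1 hx))]
    have h4 := h3.insert (a := a) (by
      rw [Function.update_self, Finset.mem_coe]
      exact hb)
    rw [Function.update_self, ← Finset.coe_insert, ← Finset.coe_insert] at h4
    exact h4
  · intro c hc
    rcases Finset.mem_insert.1 hc with hc | hc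
    · rw [hc, Function.update_self, h.nz_a']
    · rw [Function.update_of_ne (hne c hc)]
      exact hμ.1.2 c hc
  · have hνa : ν a = u b := h.nz_a'.1 (hν.2 a (Finset.mem_insert_self _ _))
    obtain ⟨c, hc, h1, h2⟩ := hlt
    rcases Finset.mem_insert.1 hc with hca | hcJ
    · rw [hca, Function.update_self, hνa] at h1
      exact lt_irrefl _ h1
    · apply hμ.2 ν
      · constructor
        · have h3 := hν.1.sdiff_singleton (Finset.mem_coe.2 (Finset.mem_insert_self a J))
          rw [hνa, ← Finset.coe_erase, ← Finset.coe_erase, Finset.erase_insert ha,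
            Finset.erase_insert hb] at h3
          exact h3
        · intro c hc
          exact hν.2 c (Finset.mem_insert_of_mem hc)
      · refine ⟨c, hcJ, ?_, fun c' hc' hcc => ?_⟩
        · rw [Function.update_of_ne (hne c hcJ)] at h1
          exact h1
        · have h3 := h2 c' (Finset.mem_insert_of_mem hc') hcc
          rw [Function.update_of_ne (hne c' hc')] at h3
          exact h3

theorem bad_common (hI : ∀ r ∈ I, i ≤ r) (hJ : ∀ c ∈ J, c ≤ j) (hrk : rk v i j < J.card)
    (hμ : Leader (u * Equiv.swap a b) I J μ) (hab : ¬ (a ∈ J ∧ b ∉ J))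
    (hS : ∀ c ∈ J, μ c = (u * Equiv.swap a b) c ∨ ((u * Equiv.swap a b) c, μ c) ∈ S) : Bad u v S := by
  by_cases hH : b ∈ J → a ∈ J ∨ u b ∉ I
  · refine ⟨i, j, I, sw a b J, μ ∘ Equiv.swap a b, hI, ?_, by rw [card_sw]; exact hrk, h.leader_sw hH hμ,
      labels_sw hS⟩
    intro c hc
    rw [mem_sw] at hc
    by_cases hca : c = a
    · rw [hca, Equiv.swap_apply_left] at hc
      rw [hca]
      exact h.lt.le.trans (hJ b hc)
    · by_cases hcb : c = b
      · rw [hcb, Equiv.swap_apply_right] at hc
        rw [hcb]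
        by_contra h1
        exact hab ⟨hc, fun h2 => h1 (hJ b h2)⟩
      · rw [Equiv.swap_apply_of_ne_of_ne hca hcb] at hc
        exact hJ c hc
  · push Not at hH
    obtain ⟨hbJ, haJ, hbI⟩ := hH
    obtain ⟨c₀, hc₀, hc₀'⟩ := hμ.1.1.surjOn (Finset.mem_coe.2 hbI)
    rw [Finset.mem_coe] at hc₀
    have hc₀b : c₀ ≠ b := by
      rintro rfl
      apply h.not_nz_b'
      have h1 := hμ.1.2 c₀ hc₀
      rw [hc₀'] at h1
      exact h1
    have h1 := hμ.erase hc₀
    rw [hc₀'] at h1
    have h2 := h.leader_insert (fun h3 => haJ (Finset.mem_of_mem_erase h3)) (Finset.notMem_erase _ _) h1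
    rw [Finset.insert_erase hbI] at h2
    have h3 := h.leader_sw (fun _ => Or.inl (Finset.mem_insert_self _ _)) h2
    refine ⟨i, j, I, _, _, hI, ?_, ?_, h3, ?_⟩
    · intro c hc
      rw [mem_sw] at hc
      have hbj := hJ b hbJ
      by_cases hca : c = a
      · rw [hca]
        exact h.lt.le.trans hbj
      · by_cases hcb : c = b
        · rw [hcb]
          exact hbj
        · rw [Equiv.swap_apply_of_ne_of_ne hca hcb] at hc
          rcases Finset.mem_insert.1 hc with hc | hc
          · exact absurd hc hca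
          · exact hJ c (Finset.mem_of_mem_erase hc)
    · rw [card_sw, Finset.card_insert_of_notMem (fun h3 => haJ (Finset.mem_of_mem_erase h3)),
        Finset.card_erase_of_mem hc₀]
      have h4 : 0 < J.card := Finset.card_pos.2 ⟨c₀, hc₀⟩
      omega
    · apply labels_sw
      intro c hc
      rcases Finset.mem_insert.1 hc with hc1 | hc1
      · left
        rw [hc1, Function.update_self, Equiv.Perm.mul_apply, Equiv.swap_apply_left]
      · have hc2 : c ∈ J := Finset.mem_of_mem_erase hc1
        have hca : c ≠ a := by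
          intro h5
          rw [h5] at hc2
          exact haJ hc2
        rw [Function.update_of_ne hca]
        exact hS c hc2

theorem bad_mem (hz : (u a, u b) ∈ S) (hbad : Bad (u * Equiv.swap a b) v (S.erase (u a, u b))) :
    Bad u v S := by
  obtain ⟨i, j, I, J, μ, hI, hJ, hrk, hμ, hS⟩ := hbad
  have hS' : ∀ c ∈ J, μ c = (u * Equiv.swap a b) c ∨ ((u * Equiv.swap a b) c, μ c) ∈ S := by
    intro c hc
    rcases hS c hc with h1 | h1
    · exact Or.inl h1
    · exact Or.inr (Finset.mem_of_mem_erase h1)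
  by_cases hab : a ∈ J ∧ b ∉ J
  · refine ⟨i, j, I, J, μ, hI, hJ, hrk, h.leader_mem hab.1 hab.2 hμ, fun c hc => ?_⟩
    by_cases hca : c = a
    · right
      have h1 := hμ.1.2 a hab.1
      rw [h.nz_a'] at h1
      rw [hca, h1]
      exact hz
    · have hcb : c ≠ b := by
        rintro rfl
        exact hab.2 hc
      have h1 := hS' c hc
      rw [Equiv.Perm.mul_apply, Equiv.swap_apply_of_ne_of_ne hca hcb] at h1
      exact h1
  · exact h.bad_common hI hJ hrk hμ hab hS'

theorem bad_nmem (hbad : Bad (u * Equiv.swap a b) (dem v a b) S) : Bad u v S := by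
  obtain ⟨i, j, I, J, μ, hI, hJ, hrk, hμ, hS⟩ := hbad
  by_cases hab : a ∈ J ∧ b ∉ J
  · by_cases hcase : b ≤ j ∨ max (v a) (v b) < i
    · have h1 : rk v i (max j b) < J.card := by
        by_cases hbj : b ≤ j
        · rw [max_eq_left hbj, ← rk_dem_of_le h.lt hbj]
          exact hrk
        · have h2 : max (v a) (v b) < i := by
            rcases hcase with h2 | h2
            · exact absurd h2 hbj
            · exact h2
          have h3 : j = a := by
            apply le_antisymm
            · by_contra h4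
              exact hbj (h.no_between (not_le.1 h4))
            · exact hJ a hab.1
          rw [max_eq_right (not_le.1 hbj).le]
          refine lt_of_le_of_lt (rk_dem_small h.1 h2) ?_
          rw [← h3]
          rw [h3] at hrk ⊢
          exact hrk
      refine ⟨i, max j b, I, sw a b J, μ ∘ Equiv.swap a b, hI, ?_, by rw [card_sw]; exact h1,
        h.leader_sw (fun h2 => absurd h2 hab.2) hμ, labels_sw hS⟩
      intro c hc
      rw [mem_sw] at hc
      by_cases hca : c = a
      · rw [hca]
        exact h.lt.le.trans (le_max_right _ _)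
      · by_cases hcb : c = b
        · rw [hcb]
          exact le_max_right _ _
        · rw [Equiv.swap_apply_of_ne_of_ne hca hcb] at hc
          exact (hJ c hc).trans (le_max_left _ _)
    · push Not at hcase
      have h3 : j = a := by
        apply le_antisymm
        · by_contra h4
          exact absurd hcase.1 (not_lt.2 (h.no_between (not_le.1 h4)))
        · exact hJ a hab.1
      subst h3
      have h4 : 1 ≤ rk (dem v j b) i j := by
        rw [rk, Nat.one_le_iff_ne_zero, ← Nat.pos_iff_ne_zero, Finset.card_pos]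
        refine ⟨j, ?_⟩
        rw [Finset.mem_filter, dem_left]
        exact ⟨Finset.mem_univ _, le_rfl, hcase.2⟩
      have h5 : (J.erase j).Nonempty := by
        rw [← Finset.card_pos, Finset.card_erase_of_mem hab.1]
        omega
      obtain ⟨c₀, hc₀⟩ := h5
      have h6 : c₀ < j := lt_of_le_of_ne (hJ c₀ (Finset.mem_of_mem_erase hc₀)) (Finset.ne_of_mem_erase hc₀)
      rw [Fin.lt_def] at h6
      have h7 : (j : ℕ) - 1 < n := by
        have := j.isLt
        omega
      have h8 : ((⟨(j : ℕ) - 1, h7⟩ : Fin n) : ℕ) + 1 = j := by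
        show (j : ℕ) - 1 + 1 = j
        omega
      have h9 := rk_dem_large (v := v) h.lt hcase.2 h8
      have hb' : b ∉ J.erase j := fun h10 => hab.2 (Finset.mem_of_mem_erase h10)
      refine ⟨i, ⟨(j : ℕ) - 1, h7⟩, I.erase (μ j), sw j b (J.erase j), μ ∘ Equiv.swap j b,
        fun r hr => hI r (Finset.mem_of_mem_erase hr), ?_, ?_,
        h.leader_sw (fun h10 => absurd h10 hb') (hμ.erase hab.1),
        labels_sw (fun c hc => hS c (Finset.mem_of_mem_erase hc))⟩
      · intro c hc
        rw [mem_sw] at hc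
        have hca : c ≠ j := by
          rintro rfl
          rw [Equiv.swap_apply_left] at hc
          exact hb' hc
        have hcb : c ≠ b := by
          rintro rfl
          rw [Equiv.swap_apply_right] at hc
          exact absurd rfl (Finset.ne_of_mem_erase hc)
        rw [Equiv.swap_apply_of_ne_of_ne hca hcb] at hc
        have h10 := lt_of_le_of_ne (hJ c (Finset.mem_of_mem_erase hc)) hca
        rw [Fin.lt_def] at h10
        rw [Fin.le_def]
        show (c : ℕ) ≤ (j : ℕ) - 1
        omega
      · rw [card_sw, Finset.card_erase_of_mem hab.1]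
        omega
  · exact h.bad_common hI hJ (lt_of_le_of_lt (rk_le_dem h.lt) hrk) hμ hab hS

end LastAsc

/-- consecutive descents give descents -/
theorem descents (k : ℕ) (hd : ∀ c d : Fin n, k ≤ (c : ℕ) → (d : ℕ) = c + 1 → u d < u c) :
    ∀ m : ℕ, ∀ c d : Fin n, k ≤ (c : ℕ) → (d : ℕ) = c + 1 + m → u d < u c := by
  intro m
  induction m with
  | zero => intro c d hc hcd; exact hd c d hc (by omega)
  | succ m ih =>
    intro c d hc hcd
    have h1 : (c : ℕ) + 1 + m < n := by
      have := d.isLt
      omega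
    have h2 := ih c ⟨(c : ℕ) + 1 + m, h1⟩ hc rfl
    have h3 := hd ⟨(c : ℕ) + 1 + m, h1⟩ d (by show k ≤ (c : ℕ) + 1 + m; omega)
      (by show (d : ℕ) = (c : ℕ) + 1 + m + 1; omega)
    exact h3.trans h2

theorem exists_lastAsc (hu : ¬ ∀ a b, a < b → u b < u a) : ∃ a b, LastAsc u a b := by
  classical
  have h1 : (Finset.univ.filter fun c : Fin n => ∃ d : Fin n, (d : ℕ) = c + 1 ∧ u c < u d).Nonempty := by
    by_contra h1
    rw [Finset.not_nonempty_iff_eq_empty] at h1
    apply hu
    intro a b hab
    have h2 : ∀ c d : Fin n, 0 ≤ (c : ℕ) → (d : ℕ) = c + 1 → u d < u c := by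
      intro c d _ hcd
      by_contra h3
      have h4 : c ∈ (Finset.univ.filter fun c : Fin n => ∃ d : Fin n, (d : ℕ) = c + 1 ∧ u c < u d) := by
        rw [Finset.mem_filter]
        refine ⟨Finset.mem_univ _, d, hcd, lt_of_le_of_ne (not_lt.1 h3) ?_⟩
        intro h5
        have h6 := u.injective h5
        rw [h6] at hcd
        omega
      rw [h1] at h4
      exact Finset.notMem_empty _ h4
    rw [Fin.lt_def] at hab
    exact descents 0 h2 ((b : ℕ) - a - 1) a b (Nat.zero_le _) (by omega)
  obtain ⟨a, ha, hmax⟩ := Finset.exists_max_image _ id h1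
  rw [Finset.mem_filter] at ha
  obtain ⟨-, b, hb, hub⟩ := ha
  refine ⟨a, b, hb, hub, fun c d hc hcd => ?_⟩
  have h2 : ∀ c d : Fin n, (b : ℕ) ≤ (c : ℕ) → (d : ℕ) = c + 1 → u d < u c := by
    intro c d hc hcd
    by_contra h3
    have h4 : c ∈ (Finset.univ.filter fun c : Fin n => ∃ d : Fin n, (d : ℕ) = c + 1 ∧ u c < u d) := by
      rw [Finset.mem_filter]
      refine ⟨Finset.mem_univ _, d, hcd, lt_of_le_of_ne (not_lt.1 h3) ?_⟩
      intro h5
      have h6 := u.injective h5
      rw [h6] at hcd
      omega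
    have h5 := hmax c h4
    have h6 : (c : ℕ) ≤ a := h5
    omega
  rw [Fin.lt_def] at hcd
  exact descents b h2 ((d : ℕ) - c - 1) c d hc (by omega)

/-- the base case -/
theorem eq_of_not_bad (hu : ∀ a b, a < b → u b < u a) (hbad : ¬ Bad u v S) : v = u := by
  have hnz : ∀ r c, nz u r c → r = u c := by
    rintro r c (h1 | ⟨h1, h2⟩)
    · exact h1.symm
    · have h3 := hu c _ h2
      rw [Equiv.apply_symm_apply] at h3
      exact absurd h1 (not_lt.2 h3.le)
  have hrk : ∀ i j, rk u i j ≤ rk v i j := by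
    intro i j
    by_contra h1
    apply hbad
    set J := Finset.univ.filter fun k => k ≤ j ∧ i ≤ u k with hJ
    refine ⟨i, j, J.image u, J, u, ?_, ?_, not_le.1 h1, ⟨⟨?_, fun c _ => Or.inl rfl⟩, ?_⟩, fun c _ => Or.inl rfl⟩
    · intro r hr
      obtain ⟨k, hk, rfl⟩ := Finset.mem_image.1 hr
      exact (Finset.mem_filter.1 hk).2.2
    · intro c hc
      exact (Finset.mem_filter.1 hc).2.1
    · rw [Finset.coe_image]
      exact u.injective.injOn.bijOn_image
    · rintro ν hν ⟨c, hc, h2, -⟩
      rw [hnz _ _ (hν.2 c hc)] at h2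
      exact lt_irrefl _ h2
  have hge : ∀ c, u c ≤ v c := by
    intro c
    have h1 := hrk (u c) c
    have h2 : rk u (u c) c = (Finset.univ.filter fun k => k ≤ c).card := by
      rw [rk]
      congr 1
      ext k
      rw [Finset.mem_filter, Finset.mem_filter]
      constructor
      · rintro ⟨h2, h3, -⟩
        exact ⟨h2, h3⟩
      · rintro ⟨h2, h3⟩
        refine ⟨h2, h3, ?_⟩
        rcases h3.eq_or_lt with h4 | h4
        · rw [h4]
        · exact (hu k c h4).le
    rw [h2, rk] at h1
    have h3 : (Finset.univ.filter fun k => k ≤ c ∧ u c ≤ v k) = Finset.univ.filter fun k => k ≤ c := by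
      apply Finset.eq_of_subset_of_card_le
      · intro k hk
        rw [Finset.mem_filter] at hk ⊢
        exact ⟨hk.1, hk.2.1⟩
      · exact h1
    have h4 : c ∈ Finset.univ.filter fun k => k ≤ c := by
      rw [Finset.mem_filter]
      exact ⟨Finset.mem_univ _, le_rfl⟩
    rw [← h3, Finset.mem_filter] at h4
    exact h4.2.2
  have hsum : ∑ c, ((v c : Fin n) : ℕ) = ∑ c, ((u c : Fin n) : ℕ) := by
    rw [Equiv.sum_comp v (fun x : Fin n => (x : ℕ)), Equiv.sum_comp u (fun x : Fin n => (x : ℕ))]
  have h1 : ∀ c ∈ (Finset.univ : Finset (Fin n)), ((u c : Fin n) : ℕ) = (v c : Fin n) := by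
    rw [← Finset.sum_eq_sum_iff_of_le]
    · exact hsum.symm
    · intro c _
      exact hge c
  ext c
  exact (h1 c (Finset.mem_univ _)).symm

theorem measure_lt (h : LastAsc u a b) :
    ∑ c : Fin n, (c : ℕ) * ((u * Equiv.swap a b) c : Fin n) < ∑ c : Fin n, (c : ℕ) * (u c : Fin n) := by
  have e1 : ∀ f : Fin n → ℕ, ∑ c, f c = f a + (f b + ∑ c ∈ (Finset.univ.erase a).erase b, f c) := by
    intro f
    rw [← Finset.add_sum_erase _ f (Finset.mem_univ a),
      ← Finset.add_sum_erase _ f (Finset.mem_erase.2 ⟨h.ne.symm, Finset.mem_univ b⟩)]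
  rw [e1, e1 (fun c : Fin n => (c : ℕ) * (u c : Fin n))]
  have e2 : ∑ c ∈ (Finset.univ.erase a).erase b, (c : ℕ) * ((u * Equiv.swap a b) c : Fin n) =
      ∑ c ∈ (Finset.univ.erase a).erase b, (c : ℕ) * (u c : Fin n) := by
    apply Finset.sum_congr rfl
    intro c hc
    rw [Finset.mem_erase, Finset.mem_erase] at hc
    rw [Equiv.Perm.mul_apply, Equiv.swap_apply_of_ne_of_ne hc.2.1 hc.1]
  rw [e2, Equiv.Perm.mul_apply, Equiv.Perm.mul_apply, Equiv.swap_apply_left, Equiv.swap_apply_right]
  have h1 := h.1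
  have h2 : (u a : ℕ) < u b := h.2.1
  rw [h1]
  nlinarith

/-- **the recursive criterion follows from the criterion on leading terms** -/
theorem std_of_not_bad (u v : Equiv.Perm (Fin n)) (S : Finset (Fin n × Fin n)) (hbad : ¬ Bad u v S) :
    Std u v S := by
  have key : ∀ m : ℕ, ∀ (u v : Equiv.Perm (Fin n)) (S : Finset (Fin n × Fin n)),
      ∑ c : Fin n, (c : ℕ) * (u c : Fin n) = m → ¬ Bad u v S → Std u v S := by
    intro m
    induction m using Nat.strong_induction_on with
    | _ m ih =>
      intro u v S hm hbad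
      by_cases hu : ∀ a b, a < b → u b < u a
      · rw [eq_of_not_bad hu hbad]
        exact Std.base u S hu
      · obtain ⟨a, b, hab⟩ := exists_lastAsc hu
        have h1 := measure_lt hab
        rw [hm] at h1
        by_cases hz : (u a, u b) ∈ S
        · exact Std.mem u v S a b hab hz (ih _ h1 _ _ _ rfl fun h2 => hbad (hab.bad_mem hz h2))
        · exact Std.nmem u v S a b hab hz (ih _ h1 _ _ _ rfl fun h2 => hbad (hab.bad_nmem h2))
  exact key _ u v S rfl hbad

end Pool.Agent.H38.KL
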