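import Pool.Agent.H38.KL.Env

/-!
# Selection of the families (MP_a7460d_ag, note 3059)
-/

set_option autoImplicit false

namespace Pool.Agent.H38.KL

variable {n : ℕ} {u : Equiv.Perm (Fin n)} {c r : Fin n}

theorem V_ne_zero {S : Finset (Finset (Fin n))} (hS : ∀ P ∈ S, IsPath u c r P) {P : Finset (Fin n)}
    (h : V u S P ≠ 0) : IsPath u c r P := by
  classical
  obtain ⟨R, hR, h1⟩ := Finset.exists_ne_zero_of_sum_ne_zero h
  rw [Finset.mem_powerset] at hR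
  have h2 : R.Nonempty ∧ env u R = P := by
    by_contra h3
    exact h1 (if_neg h3)
  rw [← h2.2]
  exact env_isPath (fun Q hQ => hS Q (hR hQ)) h2.1

/-- block of a path which lies in the box -/
theorem blk_iff {i j a b : Fin n} {θ θ' T : Finset (Fin n)} (hT : IsPath u c r T) (hTb : InBox u c r i j T)
    (hi : i ≤ u r) (hj : c ≤ j) (ha : u a < i) (hb : j < b) :
    Blk u i j a b θ θ' T ↔ a = c ∧ b = r ∧ θ = {c} ∧ θ' = {r} := by
  have h1 : ∀ x ∈ T, u x < i → x = c := by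
    intro x hx hxi
    rcases hTb x hx with h | h | h
    · exact h
    · rw [h] at hxi
      exact absurd hi (not_le.2 hxi)
    · exact absurd h.2 (not_le.2 hxi)
  have h2 : ∀ x ∈ T, j < x → x = r := by
    intro x hx hxj
    rcases hTb x hx with h | h | h
    · rw [h] at hxj
      exact absurd hj (not_le.2 hxj)
    · exact h
    · exact absurd h.1 (not_le.2 hxj)
  have h3 : T.filter (fun d => d ≤ c) = {c} := by
    ext d
    rw [Finset.mem_filter, Finset.mem_singleton]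
    constructor
    · rintro ⟨h4, h5⟩
      exact le_antisymm h5 (hT.2.2.1 d h4).1
    · rintro rfl
      exact ⟨hT.1, le_rfl⟩
  have h4 : T.filter (fun d => r ≤ d) = {r} := by
    ext d
    rw [Finset.mem_filter, Finset.mem_singleton]
    constructor
    · rintro ⟨h4, h5⟩
      exact le_antisymm (hT.2.2.1 d h4).2 h5
    · rintro rfl
      exact ⟨hT.2.1, le_rfl⟩
  constructor
  · rintro ⟨h5, h6, h7, h8, -⟩
    have h9 := h1 a h5 ha
    have h10 := h2 b h6 hb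
    subst h9
    subst h10
    exact ⟨rfl, rfl, by rw [← h7, h3], by rw [← h8, h4]⟩
  · rintro ⟨rfl, rfl, rfl, rfl⟩
    refine ⟨hT.1, hT.2.1, h3, h4, fun d hd h5 h6 => ?_⟩
    rcases hTb d hd with h | h | h
    · exact absurd h (ne_of_gt h5)
    · exact absurd h (ne_of_lt h6)
    · exact h

/-- a family as in theorem 1 of note 3059 -/
def Fam (u : Equiv.Perm (Fin n)) (c r : Fin n) (Z F : Finset (Fin n × Fin n))
    (S : Finset (Finset (Fin n))) : Prop :=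
  (∀ P ∈ S, IsPath u c r P) ∧ (∀ f ∈ Z, f ∉ F → ∀ P ∈ S, Cov u f.1 f.2 P) ∧
    ∀ f ∈ F, ∃ T ∈ S, InBox u c r f.1 f.2 T

open Classical in
theorem fam_sub {Z F : Finset (Fin n × Fin n)} {S S' : Finset (Finset (Fin n))}
    (hZ : ∀ f ∈ Z, u c < f.1 ∧ c ≤ f.2 ∧ f.2 < r ∧ f.1 ≤ u r) (hS : Fam u c r Z F S) (hS' : Fam u c r Z F S')
    {f : Fin n × Fin n} (hf : f ∈ Z) {a b : Fin n} (ha : u a < f.1) (ha' : a ≤ f.2) (hb : f.2 < b)
    (hb' : f.1 ≤ u b) (θ θ' : Finset (Fin n)) :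
    ∑ P ∈ Finset.univ.filter (Blk u f.1 f.2 a b θ θ'), (V u S P - V u S' P) = 0 := by
  rw [Finset.sum_sub_distrib]
  by_cases hF : f ∈ F
  · obtain ⟨T, hT, hTb⟩ := hS.2.2 f hF
    obtain ⟨T', hT', hTb'⟩ := hS'.2.2 f hF
    rw [sum_blk hS.1 hT hTb ha hb, sum_blk hS'.1 hT' hTb' ha hb]
    have h1 := blk_iff (θ := θ) (θ' := θ') (hS.1 T hT) hTb (hZ f hf).2.2.2 (hZ f hf).2.1 ha hb
    have h2 := blk_iff (θ := θ) (θ' := θ') (hS'.1 T' hT') hTb' (hZ f hf).2.2.2 (hZ f hf).2.1 ha hb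
    have h3 : Blk u f.1 f.2 a b θ θ' T ↔ Blk u f.1 f.2 a b θ θ' T' := h1.trans h2.symm
    by_cases h4 : Blk u f.1 f.2 a b θ θ' T
    · rw [if_pos h4, if_pos (h3.1 h4), sub_self]
    · rw [if_neg h4, if_neg (fun h5 => h4 (h3.2 h5)), sub_self]
  · rw [sum_blk_cov hS.1 (hS.2.1 f hf hF) ha' hb', sum_blk_cov hS'.1 (hS'.2.1 f hf hF) ha' hb', sub_self]

/-- `e` is a NW-minimal element of `F` -/
def MinNW (F : Finset (Fin n × Fin n)) (e : Fin n × Fin n) : Prop :=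
  e ∈ F ∧ ∀ f ∈ F, e.1 ≤ f.1 → f.2 ≤ e.2 → f = e

theorem exists_minNW {F : Finset (Fin n × Fin n)} {f : Fin n × Fin n} (hf : f ∈ F) :
    ∃ e, MinNW F e ∧ f.1 ≤ e.1 ∧ e.2 ≤ f.2 := by
  have hne : (F.filter fun e => f.1 ≤ e.1 ∧ e.2 ≤ f.2).Nonempty :=
    ⟨f, Finset.mem_filter.2 ⟨hf, le_rfl, le_rfl⟩⟩
  obtain ⟨e, he, hmax⟩ := Finset.exists_max_image _ (fun e : Fin n × Fin n => (e.1 : ℤ) - (e.2 : ℤ)) hne
  rw [Finset.mem_filter] at he
  refine ⟨e, ⟨he.1, fun g hg h1 h2 => ?_⟩, he.2.1, he.2.2⟩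
  have h3 := hmax g (Finset.mem_filter.2 ⟨hg, he.2.1.trans h1, h2.trans he.2.2⟩)
  have h4 : (e.1 : ℕ) ≤ g.1 := h1
  have h5 : (g.2 : ℕ) ≤ e.2 := h2
  refine Prod.ext ?_ ?_
  · apply Fin.ext
    omega
  · apply Fin.ext
    omega

theorem InBox.mono {i j i' j' : Fin n} {P : Finset (Fin n)} (h : InBox u c r i j P) (hi : i' ≤ i) (hj : j ≤ j') :
    InBox u c r i' j' P := by
  intro d hd
  rcases h d hd with h1 | h1 | h1
  · exact Or.inl h1
  · exact Or.inr (Or.inl h1)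
  · exact Or.inr (Or.inr ⟨h1.1.trans hj, hi.trans h1.2⟩)

/-- the SW-most minimal box -/
theorem exists_first {F : Finset (Fin n × Fin n)} (hF : F.Nonempty) :
    ∃ e, MinNW F e ∧ ∀ f, MinNW F f → e.1 ≤ f.1 ∧ e.2 ≤ f.2 := by
  classical
  obtain ⟨f0, hf0⟩ := hF
  obtain ⟨e0, he0, -⟩ := exists_minNW hf0
  have hne : (F.filter fun e => MinNW F e).Nonempty := ⟨e0, Finset.mem_filter.2 ⟨he0.1, he0⟩⟩
  obtain ⟨e, he, hmin⟩ := Finset.exists_min_image _ (fun e : Fin n × Fin n => e.2) hne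
  rw [Finset.mem_filter] at he
  refine ⟨e, he.2, fun f hf => ?_⟩
  have h1 := hmin f (Finset.mem_filter.2 ⟨hf.1, hf⟩)
  refine ⟨?_, h1⟩
  by_contra h2
  have h3 := hf.2 e he.1 (not_le.1 h2).le h1
  rw [h3] at h2
  exact h2 le_rfl

/-- the selection of a family at cardinality `K` -/
theorem exists_fam {Z F : Finset (Fin n × Fin n)} {e1 : Fin n × Fin n} (he1 : MinNW F e1)
    (hfirst : ∀ f, MinNW F f → e1.1 ≤ f.1 ∧ e1.2 ≤ f.2) (K : ℕ)
    (hK : ∀ e, MinNW F e → ∃ P, IsPath u c r P ∧ P.card = K ∧ InBox u c r e.1 e.2 P ∧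
      ∀ f ∈ Z, f ∉ F → Cov u f.1 f.2 P) :
    ∃ S : Finset (Finset (Fin n)), Fam u c r Z F S ∧ ∃ T ∈ S, T.card = K ∧ InBox u c r e1.1 e1.2 T ∧
      ∀ P ∈ S, InBox u c r e1.1 e1.2 P → P = T := by
  classical
  -- admissible paths
  let G : Finset (Finset (Fin n)) := Finset.univ.filter fun P =>
    IsPath u c r P ∧ P.card = K ∧ ∀ f ∈ Z, f ∉ F → Cov u f.1 f.2 P
  let Q : Finset (Finset (Fin n) × (Fin n × Fin n)) := (G ×ˢ F).filter fun x =>
    InBox u c r e1.1 e1.2 x.1 ∧ MinNW F x.2 ∧ InBox u c r x.2.1 x.2.2 x.1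
  have hQ : Q.Nonempty := by
    obtain ⟨P, h1, h2, h3, h4⟩ := hK e1 he1
    refine ⟨(P, e1), ?_⟩
    simp only [Q, G, Finset.mem_filter, Finset.mem_product, Finset.mem_univ, true_and]
    exact ⟨⟨⟨h1, h2, h4⟩, he1.1⟩, h3, he1, h3⟩
  obtain ⟨x, hx, hmax⟩ := Finset.exists_max_image Q (fun x => x.2.1) hQ
  simp only [Q, G, Finset.mem_filter, Finset.mem_product, Finset.mem_univ, true_and] at hx
  obtain ⟨⟨⟨hx1, hx2, hx3⟩, hx4⟩, hx5, hx6, hx7⟩ := hx
  choose! p hp using hK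
  refine ⟨insert x.1 ((F.filter fun e => MinNW F e ∧ x.2.1 < e.1).image p), ⟨?_, ?_, ?_⟩, x.1,
    Finset.mem_insert_self _ _, hx2, hx5, ?_⟩
  · intro P hP
    rcases Finset.mem_insert.1 hP with h | h
    · rw [h]; exact hx1
    · obtain ⟨e, he, rfl⟩ := Finset.mem_image.1 h
      exact (hp e (Finset.mem_filter.1 he).2.1).1
  · intro f hf hfF P hP
    rcases Finset.mem_insert.1 hP with h | h
    · rw [h]; exact hx3 f hf hfF
    · obtain ⟨e, he, rfl⟩ := Finset.mem_image.1 h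
      exact (hp e (Finset.mem_filter.1 he).2.1).2.2.2 f hf hfF
  · intro f hf
    obtain ⟨e, he, h1, h2⟩ := exists_minNW hf
    by_cases h3 : x.2.1 < e.1
    · refine ⟨p e, Finset.mem_insert_of_mem (Finset.mem_image_of_mem p
        (Finset.mem_filter.2 ⟨he.1, he, h3⟩)), (hp e he).2.2.1.mono h1 h2⟩
    · refine ⟨x.1, Finset.mem_insert_self _ _, ?_⟩
      have h4 : InBox u c r e.1 e.2 x.1 := by
        intro d hd
        rcases hx5 d hd with h5 | h5 | h5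
        · exact Or.inl h5
        · exact Or.inr (Or.inl h5)
        · rcases hx7 d hd with h6 | h6 | h6
          · exact Or.inl h6
          · exact Or.inr (Or.inl h6)
          · exact Or.inr (Or.inr ⟨h5.1.trans (hfirst e he).2, (not_lt.1 h3).trans h6.2⟩)
      exact h4.mono h1 h2
  · intro P hP hPb
    rcases Finset.mem_insert.1 hP with h | h
    · exact h
    · exfalso
      obtain ⟨e, he, rfl⟩ := Finset.mem_image.1 h
      obtain ⟨he1', he2, he3⟩ := Finset.mem_filter.1 he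
      obtain ⟨h1, h2, h3, h4⟩ := hp e he2
      have h5 : (p e, e) ∈ Q := by
        simp only [Q, G, Finset.mem_filter, Finset.mem_product, Finset.mem_univ, true_and]
        exact ⟨⟨⟨h1, h2, h4⟩, he1'⟩, hPb, he2, h3⟩
      exact absurd (hmax _ h5) (not_le.2 he3)

open Classical in
/-- the functional at a class with two common lengths -/
theorem exists_functional {Z F : Finset (Fin n × Fin n)}
    (hZ : ∀ f ∈ Z, u c < f.1 ∧ c ≤ f.2 ∧ f.2 < r ∧ f.1 ≤ u r) (hF : F.Nonempty) {K K' : ℕ} (hKK : K ≠ K')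
    (hK : ∀ e, MinNW F e → ∃ P, IsPath u c r P ∧ P.card = K ∧ InBox u c r e.1 e.2 P ∧
      ∀ f ∈ Z, f ∉ F → Cov u f.1 f.2 P)
    (hK' : ∀ e, MinNW F e → ∃ P, IsPath u c r P ∧ P.card = K' ∧ InBox u c r e.1 e.2 P ∧
      ∀ f ∈ Z, f ∉ F → Cov u f.1 f.2 P) :
    ∃ v : Finset (Fin n) → ℤ, (∀ P, v P ≠ 0 → IsPath u c r P) ∧
      (∀ f ∈ Z, ∀ a b : Fin n, u a < f.1 → a ≤ f.2 → f.2 < b → f.1 ≤ u b → ∀ θ θ' : Finset (Fin n),
        ∑ P ∈ Finset.univ.filter (Blk u f.1 f.2 a b θ θ'), v P = 0) ∧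
      ∃ e ∈ F, ∑ P ∈ Finset.univ.filter (fun P => InBox u c r e.1 e.2 P ∧ P.card = K), v P = 1 := by
  obtain ⟨e1, he1, hfirst⟩ := exists_first hF
  obtain ⟨S, hS, T, hT, hTK, hTb, hTu⟩ := exists_fam he1 hfirst K hK
  obtain ⟨S', hS', T', hT', hTK', hTb', hTu'⟩ := exists_fam he1 hfirst K' hK'
  refine ⟨fun P => V u S P - V u S' P, fun P hP => ?_, fun f hf a b h1 h2 h3 h4 θ θ' =>
    fam_sub hZ hS hS' hf h1 h2 h3 h4 θ θ', e1, he1.1, ?_⟩
  · by_cases h1 : V u S P = 0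
    · apply V_ne_zero hS'.1
      intro h2
      apply hP
      simp only [h1, h2, sub_zero]
    · exact V_ne_zero hS.1 h1
  · rw [Finset.sum_sub_distrib]
    have h1 := sum_box hS.1 hT hTb hTu K
    have h2 := sum_box hS'.1 hT' hTb' hTu' K
    rw [h1, h2, if_pos hTK, if_neg (by rw [hTK']; exact Ne.symm hKK)]
    norm_num

end Pool.Agent.H38.KL
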